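import Pool.Agent.H18.PB.Skel2
import Pool.Agent.H6.SLP.Grow

/-!
# Plan B, the slope law: the statements

`thrT a w` (helper6) is the precision of the labels of class `K` of radius `a` and window `w`, in
mesh units, visible at the resolution `ρ`. `SLP` follows from four statements:

* `RADS`: if the radius shrinks by `v` at a fixed window, the precision increases by `v`;
* `SLOS`: slope `K` along `(a, w) ↦ (a + u, w + u)` in the thin zone `N / (2 Q) ≤ a - w ≤ N / Q`,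
  at rows all of whose neighbouring blocks are not full, if the precision is smaller than the
  precision of the ball label of radius `a` by `γ N`;
* `BFLW`: this gap is at least `γ N` for most radii whose row is in a block which is not full;
* `CNVS`: ball labels with the gradient bound at the sample are ball labels with the gradient bound
  on a smaller ball.
-/

set_option autoImplicit false

namespace Pool.PB

open Finset Real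
open Pool.Agent.H49.Ent Pool.Agent.H32.Dense Pool.STK Pool.KA Pool.KSAT Pool.K2S

variable {m J : ℕ}

/-- All the (aligned) blocks of length `L` at distance less than `B` blocks from the block of the
row `P` are not full. -/
def Nf (F : Fam m J) (c : ℝ) (N L B P : ℕ) (A : F.Ω → Prop) : Prop :=
  ∀ l : ℕ, P / L < l + B → l < P / L + B → (l + 1) * L ≤ N → Zr F c N (l * L) ((l + 1) * L) A

/-- The pair `(w, k)` (window `w`, radius `w + k`) is in the thin zone. -/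
def Zo (N Q k : ℕ) : Prop := N ≤ 2 * Q * k ∧ Q * k ≤ N

open Classical in
/-- The pairs `(w, k)` of the thin zone where the slope law fails: the row `P` is surrounded by
blocks which are not full, the gap is large, but the precision does not increase by `K U L` between
`(w + k, w)` and `(w + k + U L, w + U L)`. -/
noncomputable def slx (F : Fam m J) (i₁ : Fin m) (c : ℝ) (N L ρ K Q B U : ℕ) (γ : ℝ)
    (A : F.Ω → Prop) : Finset (ℕ × ℕ) :=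
  (range N ×ˢ range (N + 1)).filter fun x : ℕ × ℕ => ∃ P : ℕ,
    P = thrT F i₁ N ρ K A (x.1 + x.2) x.1 ∧ Zo N Q x.2 ∧ x.1 + x.2 + U * L ≤ ρ ∧ P + B * L ≤ ρ ∧
    Nf F c N L B P A ∧ (P : ℝ) + γ * N ≤ thrT F i₁ N ρ K A (x.1 + x.2) (x.1 + x.2) ∧
    thrT F i₁ N ρ K A (x.1 + x.2 + U * L) (x.1 + U * L) < P + K * (U * L)

/-- **(SLO)** The slope law in the thin zone. -/
def SLOS (S : FCl m) : Prop :=
  ∀ c h₁ X : ℝ, 0 < c → 0 < h₁ → 0 < X → ∃ K₀ : ℕ, ∀ K ≥ K₀, ∀ ε : ℝ, 0 < ε →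
    ∃ Q₀ : ℕ, ∀ Q ≥ Q₀, 0 < Q → ∀ γ : ℝ, 0 < γ → ∃ B U : ℕ, 0 < B ∧ 0 < U ∧
    ∃ M₁ : ℕ, ∀ M ≥ M₁, ∃ L₁ : ℕ, ∀ L ≥ L₁, ∀ N : ℕ, N = M * L →
    ∀ (i₁ : Fin m) (ρ : ℕ), (ρ : ℝ) + X * N ≤ N →
    Clg S (fun J F A => Ch F i₁ ⌊h₁ * J⌋₊ A → Pls F c N ρ A →
      ((slx F i₁ c N L ρ K Q B U γ A).card : ℝ) ≤ ε * N * (N / Q))

/-- **(SLO)**, weaker form: the number of the blocks is divisible by `4`. -/
def SLOT (S : FCl m) : Prop :=
  ∀ c h₁ X : ℝ, 0 < c → 0 < h₁ → 0 < X → ∃ K₀ : ℕ, ∀ K ≥ K₀, ∀ ε : ℝ, 0 < ε →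
    ∃ Q₀ : ℕ, ∀ Q ≥ Q₀, 0 < Q → ∀ γ : ℝ, 0 < γ → ∃ B U : ℕ, 0 < B ∧ 0 < U ∧
    ∃ M₁ : ℕ, ∀ M ≥ M₁, ∃ L₁ : ℕ, ∀ L ≥ L₁, ∀ N : ℕ, N = 4 * M * L →
    ∀ (i₁ : Fin m) (ρ : ℕ), (ρ : ℝ) + X * N ≤ N →
    Clg S (fun J F A => Ch F i₁ ⌊h₁ * J⌋₊ A → Pls F c N ρ A →
      ((slx F i₁ c N L ρ K Q B U γ A).card : ℝ) ≤ ε * N * (N / Q))

theorem SLOS.slot {S : FCl m} (h : SLOS S) : SLOT S := by
  intro c h₁ X hc hh hX
  obtain ⟨K₀, h⟩ := h c h₁ X hc hh hX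
  refine ⟨K₀, fun K hK ε hε => ?_⟩
  obtain ⟨Q₀, h⟩ := h K hK ε hε
  refine ⟨Q₀, fun Q hQ hQ0 γ hγ => ?_⟩
  obtain ⟨B, U, hB, hU, M₁, h⟩ := h Q hQ hQ0 γ hγ
  refine ⟨B, U, hB, hU, M₁, fun M hM => ?_⟩
  obtain ⟨L₁, h⟩ := h (4 * M) (by omega)
  exact ⟨L₁, h⟩

open Classical in
/-- **(BFL)** The ball frontier lemma (helper19): for most radii `a` whose row is in a block which
is not full, the precision of the balls of radius `a` is larger than the precision of the tubes of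
radius `a` and window `w` by `γ N`. -/
def BFLW (S : FCl m) : Prop :=
  ∀ c h₁ X : ℝ, 0 < c → 0 < h₁ → 0 < X → ∀ K : ℕ, 1 ≤ K → ∀ ε γ₀ : ℝ, 0 < ε → 0 < γ₀ →
    ∃ γ : ℝ, 0 < γ ∧ γ ≤ γ₀ ∧ ∃ M₁ : ℕ, ∀ M ≥ M₁, ∃ L₁ : ℕ, ∀ L ≥ L₁, ∀ N : ℕ, N = M * L →
    ∀ (i₁ : Fin m) (ρ w : ℕ), (ρ : ℝ) + X * N ≤ N → Clg S (fun J F A => Ch F i₁ ⌊h₁ * J⌋₊ A →
      (((range N).filter fun a => w ≤ a ∧
        (thrT F i₁ N ρ K A a a : ℝ) ≤ thrT F i₁ N ρ K A a w + γ * N ∧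
        (thrT F i₁ N ρ K A a w : ℝ) + 2 * γ * N ≤ ρ ∧
        Zr F c N (thrT F i₁ N ρ K A a w / L * L)
          ((thrT F i₁ N ρ K A a w / L + 1) * L) A).card : ℝ) ≤ ε * N)

/-- **(RAD)** If the radius shrinks at a fixed window, then the precision increases. -/
def RADS (S : FCl m) : Prop :=
  ∀ h₁ X : ℝ, 0 < h₁ → 0 < X → ∀ K : ℕ, 1 ≤ K → ∃ N₁ : ℕ, ∀ N ≥ N₁,
    ∀ (i₁ : Fin m) (ρ a w v p : ℕ), (ρ : ℝ) + X * N ≤ N → w ≤ a → a + v ≤ ρ → p + v ≤ ρ →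
    Clg S (fun J F A => Ch F i₁ ⌊h₁ * J⌋₊ A →
      Tb F i₁ (ρ * (J / N)) K (a * (J / N)) (w * (J / N)) (p * (J / N)) A →
      Tb F i₁ (ρ * (J / N)) K ((a + v) * (J / N)) (w * (J / N)) ((p + v - 1) * (J / N)) A)

/-- **(CNV)** Ball labels with the gradient bound at the sample are ball labels with the gradient
bound on a smaller ball. -/
def CNVS (S : FCl m) : Prop :=
  ∀ h₁ X : ℝ, 0 < h₁ → 0 < X → ∀ K : ℕ, ∃ N₁ : ℕ, ∀ N ≥ N₁, ∀ (i₁ : Fin m) (ρ i p : ℕ),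
    (ρ : ℝ) + X * N ≤ N → i + 1 ≤ p → p ≤ ρ →
    Clg S (fun J F A => Ch F i₁ ⌊h₁ * J⌋₊ A →
      Tb F i₁ (ρ * (J / N)) K (i * (J / N)) (i * (J / N)) (p * (J / N)) A →
      Bl F i₁ N K ρ (i + 1) p A)

end Pool.PB
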