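import Pool.Agent.H76.SLP.D1
import Pool.Agent.H71.SLP.Stmts

/-!
# The slope law from its four parts, in the form of helper71
-/

set_option autoImplicit false

namespace Pool.PB

open Finset Real
open Pool.Agent.H49.Ent Pool.Agent.H32.Dense Pool.STK Pool.KA Pool.KSAT Pool.K2S

variable {k : ℕ}

theorem slor_of_slf {S : FCl (k + 1)} (h : Pool.SLF.SLO S) : SLOR S := by
  intro c h₁ X K ε hc hh hX hK hε
  obtain ⟨B, U, hU, hUB, Q₀, h⟩ := h c h₁ X K ε hc hh hX hK hε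
  refine ⟨B, U, hU, hUB, Q₀, fun Q hQ γ hγ => ?_⟩
  obtain ⟨M₁, h⟩ := h Q hQ γ hγ
  refine ⟨M₁, fun M hM => ?_⟩
  obtain ⟨L₁, h⟩ := h M hM
  exact ⟨L₁, fun L hL N hN i₁ ρ hρ => h L hL N hN i₁ ρ hρ⟩

/-- **(SLP)** from its four parts. -/
theorem slp_of_slf {S : FCl (k + 1)} (hRAD : RADS S) (hBFL : BFLW S) (hSLO : Pool.SLF.SLO S)
    (hCNV : CNVS S) : SLP S := slp_of_slor hRAD hBFL (slor_of_slf hSLO) hCNV

end Pool.PB
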