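import Pool.Agent.H18.PB.RowC

/-!
# The choice of the level

A bounded nonnegative function `D` on `[0, N)` which is not small on most of the blocks of length
`L` of an interval. For some level `k` all the blocks of length `l` near most of the rows are not
small.
-/

set_option autoImplicit false

namespace Pool.SLPT

open Finset Pool.PB

open Classical in
/-- Parents with a small mean are rare. -/
theorem low_mean {D : ℕ → ℝ} {c ν : ℝ} (h0 : ∀ r, 0 ≤ D r) (hc : 0 < c) {M L n Z p₀ e q : ℕ}
    (hL : 0 < L) (hn : 0 < n) (hZ : Z * n = M)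
    (hnb : (((range M).filter fun l => p₀ < (l + 1) * L ∧ l * L ≤ e ∧ bs D L l < c * L).card : ℝ)
      ≤ ν * q) :
    (((range Z).filter fun j => p₀ ≤ j * (n * L) ∧ (j + 1) * (n * L) ≤ e ∧
      bs D (n * L) j < c / 2 * (n * L)).card : ℝ) * n ≤ 2 * (ν * q) := by
  set LL := (range Z).filter fun j => p₀ ≤ j * (n * L) ∧ (j + 1) * (n * L) ≤ e ∧
      bs D (n * L) j < c / 2 * (n * L) with hLL
  set S := (range M).filter fun l => p₀ < (l + 1) * L ∧ l * L ≤ e ∧ bs D L l < c * L with hS
  have rL : (0 : ℝ) < L := by exact_mod_cast hL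
  have rn : (0 : ℝ) < n := by exact_mod_cast hn
  -- each low parent has many small blocks
  have h1 : ∀ j ∈ LL, (n : ℝ) / 2 ≤ ((S.filter fun l => l / n = j).card : ℝ) := by
    intro j hj
    rw [hLL, Finset.mem_filter, Finset.mem_range] at hj
    obtain ⟨j1, j2, j3, j4⟩ := hj
    set I := (range n).filter fun i => bs D L (j * n + i) < c * L with hI
    have e1 : (I.card : ℝ) ≤ ((S.filter fun l => l / n = j).card : ℝ) := by
      have : I.card ≤ (S.filter fun l => l / n = j).card := by
        refine Finset.card_le_card_of_injOn (fun i => j * n + i) ?_ ?_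
        · intro i hi
          rw [Finset.mem_coe, hI, Finset.mem_filter, Finset.mem_range] at hi
          obtain ⟨i1, i2⟩ := hi
          have k1 : (j + 1) * n ≤ M := by rw [← hZ]; exact Nat.mul_le_mul_right _ j1
          have k2 : (j + 1) * n = j * n + n := by ring
          have k3 : (j * n + i + 1) * L ≤ (j + 1) * (n * L) := by
            rw [← Nat.mul_assoc]
            exact Nat.mul_le_mul_right L (by omega)
          have k4 : j * (n * L) ≤ (j * n + i) * L := by
            rw [← Nat.mul_assoc]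
            exact Nat.mul_le_mul_right L (by omega)
          have k5 : (j * n + i + 1) * L = (j * n + i) * L + L := by ring
          rw [Finset.mem_coe, Finset.mem_filter, hS, Finset.mem_filter, Finset.mem_range]
          refine ⟨⟨?_, ?_, ?_, i2⟩, ?_⟩
          · show j * n + i < M
            omega
          · show p₀ < (j * n + i + 1) * L
            omega
          · show (j * n + i) * L ≤ e
            omega
          · show (j * n + i) / n = j
            rw [Nat.mul_comm j n, Nat.mul_add_div hn, Nat.div_eq_of_lt i1, Nat.add_zero]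
        · intro a _ b _ hab
          simp only at hab
          omega
      exact_mod_cast this
    refine le_trans ?_ e1
    by_contra hcon
    push Not at hcon
    -- then the mean is large
    have e2 : c * L * (n - I.card) ≤ bs D (n * L) j := by
      rw [bs_split]
      have e3 : ∑ i ∈ (range n).filter (fun i => ¬ bs D L (j * n + i) < c * L), (c * L : ℝ) ≤
          ∑ i ∈ range n, bs D L (j * n + i) := by
        refine (Finset.sum_le_sum fun i hi => not_lt.1 (Finset.mem_filter.1 hi).2).trans
          (Finset.sum_le_sum_of_subset_of_nonneg (Finset.filter_subset _ _)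
            fun i _ _ => bs_nonneg h0 _ _)
      rw [Finset.sum_const, nsmul_eq_mul] at e3
      have e4 : (((range n).filter (fun i => ¬ bs D L (j * n + i) < c * L)).card : ℝ) =
          n - I.card := by
        have := Finset.card_filter_add_card_filter_not (s := range n)
          (fun i => bs D L (j * n + i) < c * L)
        rw [Finset.card_range] at this
        have h' : (I.card : ℝ) + (((range n).filter
            (fun i => ¬ bs D L (j * n + i) < c * L)).card : ℝ) = n := by exact_mod_cast this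
        linarith
      rw [e4] at e3
      linarith
    have e5 : c * L * (n / 2) < c * L * (n - I.card) :=
      mul_lt_mul_of_pos_left (by linarith) (by positivity)
    have e6 : c * L * (n / 2) = c / 2 * (n * L) := by ring
    linarith
  have h2 : (LL.card : ℝ) * (n / 2) ≤ S.card := by
    have e1 : (LL.card : ℝ) * (n / 2) ≤ ∑ j ∈ LL, ((S.filter fun l => l / n = j).card : ℝ) := by
      rw [← nsmul_eq_mul, ← Finset.sum_const]
      exact Finset.sum_le_sum h1
    have e2 : ∑ j ∈ LL, (S.filter fun l => l / n = j).card ≤ S.card := by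
      rw [← Finset.card_biUnion]
      · exact Finset.card_le_card (Finset.biUnion_subset.2 fun j _ => Finset.filter_subset _ _)
      · intro a _ b _ hab
        refine Finset.disjoint_left.2 fun y hy hy' => hab ?_
        rw [Finset.mem_filter] at hy hy'
        exact hy.2.symm.trans hy'.2
    have e3 : (∑ j ∈ LL, ((S.filter fun l => l / n = j).card : ℝ)) ≤ S.card := by exact_mod_cast e2
    linarith
  linarith

open Classical in
/-- **The choice of the level.** -/
theorem exists_lev {D : ℕ → ℝ} {Bm c ν : ℝ} (h0 : ∀ r, 0 ≤ D r) (h1 : ∀ r, D r ≤ Bm)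
    (hc : 0 < c) {E q₀ r J₀ L N p₀ e : ℕ} (hE : 0 < E) (hq₀ : 0 < q₀) (hr : 0 < r) (hJ₀ : 0 < J₀)
    (hL : 0 < L) (hN : N = E * (q₀ * r ^ J₀) * L)
    (hnb : (((range (E * (q₀ * r ^ J₀))).filter fun l => p₀ < (l + 1) * L ∧ l * L ≤ e ∧
      bs D L l < c * L).card : ℝ) ≤ ν * (q₀ * r ^ J₀ : ℕ)) :
    ∃ k < J₀, ∃ l : ℕ, l = r ^ (J₀ - 1 - k) * L ∧ N = E * q₀ * r ^ (k + 1) * l ∧
      ∃ JJ : Finset ℕ, (JJ.card : ℝ) * (r * l : ℕ) ≤
        3 * (2 * ν * (q₀ * r ^ J₀ * L : ℕ) + 16 * r * N * Bm ^ 2 / (J₀ * c ^ 2)) ∧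
      ∀ P : ℕ, p₀ + 2 * (r * l) ≤ P → P + 2 * (r * l) ≤ e → P / (r * l) ∉ JJ →
        ∀ j : ℕ, P / l < j + r → j < P / l + r → (j + 1) * l ≤ N → c / 4 * l ≤ bs D l j := by
  have hN0 : 0 < N := by rw [hN]; positivity
  obtain ⟨k, hk, l, hl1, hl0, hV⟩ := exists_level h0 h1 hJ₀ (N := N)
    (fun k => E * q₀ * r ^ k) (fun _ => r) (fun _ => 1) (fun k => r ^ (J₀ - k) * L)
    (fun k _ => by ring)
    (fun k hk => by
      have : r ^ J₀ = r ^ k * r ^ (J₀ - k) := by rw [← pow_add]; congr 1; omega
      rw [hN, this]; ring)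
    (fun _ _ => one_pos) (fun k _ => by positivity) hN0
  obtain ⟨Z, hZ⟩ : ∃ Z, Z = E * q₀ * r ^ k := ⟨_, rfl⟩
  rw [← hZ] at hl1 hV
  have hZ0 : 0 < Z := by rw [hZ]; positivity
  have hlL : l = r ^ (J₀ - 1 - k) * L := by
    have e1 : Z * r * l = Z * r * (r ^ (J₀ - 1 - k) * L) := by
      have : r ^ J₀ = r ^ k * r * r ^ (J₀ - 1 - k) := by
        rw [← pow_succ, ← pow_add]; congr 1; omega
      rw [← hl1, hN, hZ, this]; ring
    exact Nat.eq_of_mul_eq_mul_left (by positivity) e1
  obtain ⟨n, hn⟩ : ∃ n, n = r * r ^ (J₀ - 1 - k) := ⟨_, rfl⟩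
  have hn0 : 0 < n := by rw [hn]; positivity
  have hrl : r * l = n * L := by rw [hn, hlL]; ring
  have hZn : Z * n = E * (q₀ * r ^ J₀) := by
    have : r ^ J₀ = r ^ k * r * r ^ (J₀ - 1 - k) := by
      rw [← pow_succ, ← pow_add]; congr 1; omega
    rw [hZ, hn, this]; ring
  have rl : (0 : ℝ) < l := by exact_mod_cast hl0
  have rr : (0 : ℝ) < r := by exact_mod_cast hr
  have rL : (0 : ℝ) < L := by exact_mod_cast hL
  have rn : (0 : ℝ) < n := by exact_mod_cast hn0
  have rJ : (0 : ℝ) < J₀ := by exact_mod_cast hJ₀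
  -- low parents
  set LL := (range Z).filter fun j => p₀ ≤ j * (n * L) ∧ (j + 1) * (n * L) ≤ e ∧
      bs D (n * L) j < c / 2 * (n * L) with hLL
  have hLc := low_mean (D := D) h0 hc (Z := Z) hL hn0 hZn hnb
  rw [← hLL] at hLc
  -- irregular parents
  set IR := (range Z).filter fun j => 2 * (c / 4) * ((r : ℝ) * l) ≤ bs D (r * l) j ∧
      ∃ i < r, bs D l (j * r + i) < c / 4 * l with hIR
  have hIc : (IR.card : ℝ) * ((1 / (r : ℝ)) * r * ((c / 4) ^ 2 * l)) ≤ N * Bm ^ 2 / J₀ := by
    refine irregular (D := D) (V := N * Bm ^ 2 / J₀) (γ := c / 4) (δ := 1 / (r : ℝ)) (by positivity)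
      hr hl0 hV IR ?_
    intro j hj
    rw [hIR, Finset.mem_filter, Finset.mem_range] at hj
    obtain ⟨j1, j2, i, i1, i2⟩ := hj
    refine ⟨j1, j2, ?_⟩
    rw [one_div, inv_mul_cancel₀ rr.ne']
    have : 0 < ((range r).filter fun i => bs D l (j * r + i) < c / 4 * l).card :=
      Finset.card_pos.2 ⟨i, Finset.mem_filter.2 ⟨Finset.mem_range.2 i1, i2⟩⟩
    exact_mod_cast this
  -- the exceptional parents
  set BB := LL ∪ IR with hBB
  set JJ := BB ∪ (BB.image Nat.succ ∪ BB.image Nat.pred) with hJJ
  have hJc : (JJ.card : ℝ) ≤ 3 * (LL.card + IR.card) := by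
    have e1 : JJ.card ≤ BB.card + (BB.card + BB.card) := by
      refine (Finset.card_union_le _ _).trans (Nat.add_le_add_left ?_ _)
      exact (Finset.card_union_le _ _).trans
        (Nat.add_le_add Finset.card_image_le Finset.card_image_le)
    have e2 : BB.card ≤ LL.card + IR.card := Finset.card_union_le _ _
    have e3 : JJ.card ≤ 3 * (LL.card + IR.card) := by omega
    exact_mod_cast e3
  refine ⟨k, hk, l, hlL, ?_, JJ, ?_, ?_⟩
  · rw [hl1, hZ, pow_succ]; ring
  · -- the bound
    have e1 : (LL.card : ℝ) * (r * l : ℕ) ≤ 2 * ν * (q₀ * r ^ J₀ * L : ℕ) := by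
      rw [hrl]
      push_cast at hLc ⊢
      calc (LL.card : ℝ) * (n * L) = LL.card * n * L := by ring
        _ ≤ 2 * (ν * (q₀ * r ^ J₀)) * L := mul_le_mul_of_nonneg_right hLc rL.le
        _ = _ := by ring
    have e2 : (IR.card : ℝ) * (r * l : ℕ) ≤ 16 * r * N * Bm ^ 2 / (J₀ * c ^ 2) := by
      have e3 : (1 / (r : ℝ)) * r * ((c / 4) ^ 2 * l) = c ^ 2 / 16 * l := by
        rw [one_div, inv_mul_cancel₀ rr.ne']; ring
      rw [e3] at hIc
      rw [le_div_iff₀ (by positivity)]
      rw [le_div_iff₀ rJ] at hIc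
      push_cast
      calc (IR.card : ℝ) * (r * l) * (J₀ * c ^ 2) =
          16 * r * (IR.card * (c ^ 2 / 16 * l) * J₀) := by ring
        _ ≤ 16 * r * (N * Bm ^ 2) := mul_le_mul_of_nonneg_left hIc (by positivity)
        _ = _ := by ring
    have e4 : (0 : ℝ) ≤ (r * l : ℕ) := Nat.cast_nonneg _
    calc (JJ.card : ℝ) * (r * l : ℕ) ≤ 3 * (LL.card + IR.card) * (r * l : ℕ) :=
          mul_le_mul_of_nonneg_right hJc e4
      _ = 3 * (LL.card * (r * l : ℕ) + IR.card * (r * l : ℕ)) := by ring
      _ ≤ _ := by linarith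
  · -- good rows
    intro P hP1 hP2 hPJ j hj1 hj2 hj3
    have hrl0 : 0 < r * l := Nat.mul_pos hr hl0
    have hjZ : j < Z * r := by
      have : (j + 1) * l ≤ Z * r * l := by rw [← hl1]; exact hj3
      have := Nat.le_of_mul_le_mul_right this hl0
      omega
    obtain ⟨a, ha⟩ : ∃ a, a = P / (r * l) := ⟨_, rfl⟩
    obtain ⟨b, hb⟩ : ∃ b, b = j / r := ⟨_, rfl⟩
    have hbZ : b < Z := by
      rw [hb, Nat.div_lt_iff_lt_mul hr]
      exact hjZ
    have hPl : P / l / r = a := by rw [ha, Nat.div_div_eq_div_mul, Nat.mul_comm]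
    obtain ⟨x, hx⟩ : ∃ x, x = P / l := ⟨_, rfl⟩
    rw [← hx] at hPl hj1 hj2
    have hx1 : a * r ≤ x := by rw [← hPl]; exact Nat.div_mul_le_self _ _
    have hx2 : x < a * r + r := by
      have h2 := Nat.div_add_mod x r
      have h3 := Nat.mod_lt x hr
      have h4 : x / r * r = r * (x / r) := Nat.mul_comm _ _
      rw [← hPl]; omega
    have hj4 : b * r ≤ j := by rw [hb]; exact Nat.div_mul_le_self _ _
    have hj5 : j < b * r + r := by
      have h2 := Nat.div_add_mod j r
      have h3 := Nat.mod_lt j hr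
      have h4 : j / r * r = r * (j / r) := Nat.mul_comm _ _
      rw [hb]; omega
    -- `b` is a neighbour of `a`
    have hab1 : b ≤ a + 1 := by
      by_contra hcon
      push Not at hcon
      have : (a + 2) * r ≤ b * r := Nat.mul_le_mul_right r (by omega)
      have e2 : (a + 2) * r = a * r + 2 * r := by ring
      omega
    have hab2 : a ≤ b + 1 := by
      by_contra hcon
      push Not at hcon
      have : (b + 2) * r ≤ a * r := Nat.mul_le_mul_right r (by omega)
      have e2 : (b + 2) * r = b * r + 2 * r := by ring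
      omega
    have hPa1 : a * (r * l) ≤ P := by rw [ha]; exact Nat.div_mul_le_self _ _
    have hPa2 : P < a * (r * l) + r * l := by
      have h2 := Nat.div_add_mod P (r * l)
      have h3 := Nat.mod_lt P hrl0
      have h4 : P / (r * l) * (r * l) = r * l * (P / (r * l)) := Nat.mul_comm _ _
      rw [ha]; omega
    have hbB : b ∉ BB := by
      intro hbB
      refine hPJ ?_
      rw [← ha]
      rcases Nat.lt_trichotomy a b with h | h | h
      · exact Finset.mem_union_right _ (Finset.mem_union_right _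
          (Finset.mem_image.2 ⟨b, hbB, by rw [Nat.pred_eq_sub_one]; omega⟩))
      · exact Finset.mem_union_left _ (h ▸ hbB)
      · exact Finset.mem_union_right _ (Finset.mem_union_left _
          (Finset.mem_image.2 ⟨b, hbB, by rw [Nat.succ_eq_add_one]; omega⟩))
    rw [hBB, Finset.mem_union, not_or] at hbB
    obtain ⟨hb1, hb2⟩ := hbB
    have hmean : c / 2 * (n * L) ≤ bs D (n * L) b := by
      by_contra hcon
      push Not at hcon
      refine hb1 (Finset.mem_filter.2 ⟨Finset.mem_range.2 hbZ, ?_, ?_, hcon⟩)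
      · rw [← hrl]
        have e1 : a * (r * l) ≤ (b + 1) * (r * l) := Nat.mul_le_mul_right _ hab2
        have e2 : (b + 1) * (r * l) = b * (r * l) + r * l := by ring
        omega
      · rw [← hrl]
        have e1 : (b + 1) * (r * l) ≤ (a + 2) * (r * l) := Nat.mul_le_mul_right _ (by omega)
        have e2 : (a + 2) * (r * l) = a * (r * l) + 2 * (r * l) := by ring
        omega
    by_contra hcon
    push Not at hcon
    refine hb2 (Finset.mem_filter.2 ⟨Finset.mem_range.2 hbZ, ?_, j - b * r, by omega, ?_⟩)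
    · rw [hrl]
      have : (r : ℝ) * l = n * L := by exact_mod_cast hrl
      rw [this]
      linarith
    · have : b * r + (j - b * r) = j := by omega
      rw [this]
      exact hcon

end Pool.SLPT
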