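import Pool.Agent.H76.SLP.Core

/-!
# Slopes of thresholds: the main combinatorial theorem
-/

set_option autoImplicit false

namespace Pool.SLPT

open Finset

open Classical in
/-- The number of windows at which the row is in a finite union of intervals. -/
theorem rows_count2 {h : ℕ → ℕ} {i₀ i₁ L b₁ b₂ p₀ ρ : ℕ} (hL : 0 < L)
    (hh : ∀ w w', i₀ ≤ w → w ≤ w' → w' ≤ i₁ → h w + (w' - w) ≤ h w' + 1)
    (hρ : ∀ w, i₀ ≤ w → w ≤ i₁ → h w < ρ) (hp : ∀ w, i₀ ≤ w → w ≤ i₁ → p₀ ≤ h w)
    (JJ : Finset ℕ) :
    ((range (i₁ + 1)).filter fun w => i₀ ≤ w ∧ (ρ < h w + b₂ ∨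
      h w < p₀ + b₁ ∨ h w / L ∈ JJ)).card ≤
      (b₂ + 1) + (b₁ + 1) + JJ.card * (L + 1) := by
  have hsub : ((range (i₁ + 1)).filter fun w => i₀ ≤ w ∧ (ρ < h w + b₂ ∨
      h w < p₀ + b₁ ∨ h w / L ∈ JJ)) ⊆
      (((range (i₁ + 1)).filter fun w => i₀ ≤ w ∧ ρ - b₂ ≤ h w ∧
        h w < ρ - b₂ + b₂) ∪
      (((range (i₁ + 1)).filter fun w => i₀ ≤ w ∧ p₀ ≤ h w ∧ h w < p₀ + b₁) ∪
      (JJ.biUnion fun j => (range (i₁ + 1)).filter fun w => i₀ ≤ w ∧ j * L ≤ h w ∧
        h w < j * L + L))) := by
    intro w hw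
    rw [Finset.mem_filter, Finset.mem_range] at hw
    obtain ⟨hw1, hw2, hw3⟩ := hw
    have k1 := hρ w hw2 (by omega)
    have k2 := hp w hw2 (by omega)
    simp only [Finset.mem_union, Finset.mem_filter, Finset.mem_range, Finset.mem_biUnion]
    rcases hw3 with h1 | h1 | h1
    · exact Or.inl ⟨hw1, hw2, by omega, by omega⟩
    · exact Or.inr (Or.inl ⟨hw1, hw2, k2, h1⟩)
    · refine Or.inr (Or.inr ⟨h w / L, h1, hw1, hw2, Nat.div_mul_le_self _ _, ?_⟩)
      have h2 := Nat.div_add_mod (h w) L
      have h3 := Nat.mod_lt (h w) hL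
      have h4 : h w / L * L = L * (h w / L) := Nat.mul_comm _ _
      omega
  have c1 := Finset.card_le_card hsub
  refine c1.trans ((Finset.card_union_le _ _).trans ?_)
  have c3 := Finset.card_union_le
    ((range (i₁ + 1)).filter fun w => i₀ ≤ w ∧ p₀ ≤ h w ∧ h w < p₀ + b₁)
    (JJ.biUnion fun j => (range (i₁ + 1)).filter fun w => i₀ ≤ w ∧ j * L ≤ h w ∧
        h w < j * L + L)
  have v1 := visits (b := ρ - b₂) (ℓ := b₂) hh
  have v3 := visits (b := p₀) (ℓ := b₁) hh
  have v4 : (JJ.biUnion fun j => (range (i₁ + 1)).filter fun w => i₀ ≤ w ∧ j * L ≤ h w ∧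
        h w < j * L + L).card ≤ JJ.card * (L + 1) := by
    refine Finset.card_biUnion_le_card_mul _ _ _ fun j _ => ?_
    exact visits (b := j * L) (ℓ := L) hh
  omega

open Classical in
/-- **The slope theorem.** `T a w` is the precision of the labels of radius `a` and window `w`;
`X` is a set of exceptional pairs `(w, a - w)` of the thin zone, the blocks of `JJ` (length `L'`)
are the exceptional rows. -/
theorem slp_core2 {T : ℕ → ℕ → ℕ} {N Q L' u K i₀ i p₀ p ρ b₁ b₂ : ℕ} {Δ ε : ℝ}
    (JJ : Finset ℕ) (X : Finset (ℕ × ℕ)) (hu0 : 0 < u) (hL : 0 < L') (hK : 0 < K) (hQ0 : 0 < Q)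
    (mono : ∀ a a' w w', a ≤ a' → w ≤ w' → w' ≤ N → T a w ≤ T a' w')
    (tri : ∀ a w v, w ≤ a → a + v ≤ ρ → T a w + v ≤ ρ → T a w + v ≤ T (a + v) (w + v) + 1)
    (hiρ : i ≤ ρ) (hiN : i ≤ N) (hii : i₀ < i) (h4 : p + 1 ≤ ρ)
    (hΔ : Δ = (i : ℝ) - i₀) (h6 : (p : ℝ) - p₀ ≤ 1 / 2 * K * Δ)
    (hT0 : p₀ ≤ T i₀ i₀) (hT1 : T i i < p)
    (hstep : ∀ w k, N ≤ 2 * Q * k → Q * k ≤ N → i₀ ≤ w → w + k + u ≤ i →
      T (w + k) w < p → p₀ + b₁ ≤ T (w + k) w → T (w + k) w + b₂ ≤ ρ → T (w + k) w / L' ∉ JJ →
      (w, k) ∉ X → T (w + k) w + K * u ≤ T (w + k + u) (w + u))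
    (hX : (X.card : ℝ) ≤ ε * N * (N / Q))
    (c1 : ((N / Q : ℕ) : ℝ) ≤ Δ / 20) (c2 : (u : ℝ) ≤ Δ / 40) (c3 : ε * N ≤ Δ / 80)
    (c5 : (b₂ : ℝ) + 1 + (b₁ + 1) + JJ.card * (L' + 1) ≤ 3 * Δ / 40) (c7 : 4 * Q ≤ N) :
    False := by
  have hN0 : 0 < N := by omega
  set Zk := (range (N + 1)).filter fun k => N ≤ 2 * Q * k ∧ Q * k ≤ N with hZk
  set kq := N / Q with hkq
  have hkle : ∀ k ∈ Zk, k ≤ kq := by
    intro k hk
    rw [hZk, Finset.mem_filter] at hk
    rw [hkq, Nat.le_div_iff_mul_le hQ0, Nat.mul_comm]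
    exact hk.2.2
  -- real versions
  have rQ : (0 : ℝ) < Q := by exact_mod_cast hQ0
  have rN : (0 : ℝ) < N := by exact_mod_cast hN0
  have rK : (1 : ℝ) ≤ K := by exact_mod_cast hK
  have rΔ0 : 0 < Δ := by
    have : (i₀ : ℝ) < i := by exact_mod_cast hii
    rw [hΔ]
    linarith only [this]
  have rkq : (kq : ℝ) ≤ Δ / 20 := c1
  have ru : (u : ℝ) ≤ Δ / 40 := c2
  have ru0 : (0 : ℝ) < u := by exact_mod_cast hu0
  -- the number of steps
  have hkqle : kq + 2 * u ≤ i - i₀ := by
    have : (kq : ℝ) + 2 * u ≤ ((i - i₀ : ℕ) : ℝ) := by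
      rw [Nat.cast_sub hii.le]
      linarith only [hΔ, c2, c1, ru0]
    exact_mod_cast this
  obtain ⟨n, hn⟩ : ∃ n, n = (i - i₀ - kq) / u - 1 := ⟨_, rfl⟩
  have hdiv : 2 ≤ (i - i₀ - kq) / u := by
    rw [Nat.le_div_iff_mul_le hu0]
    omega
  have hnu : i₀ + u + n * u + kq ≤ i := by
    have e1 : (n + 1) * u ≤ i - i₀ - kq := by
      rw [hn, Nat.sub_add_cancel (by omega)]
      exact Nat.div_mul_le_self _ _
    have e2 : (n + 1) * u = n * u + u := by ring
    omega
  exact by
   have hnu2 : (Δ : ℝ) - kq - 2 * u ≤ n * u := by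
     have e1 : i - i₀ - kq < ((i - i₀ - kq) / u + 1) * u := by
       have := Nat.lt_div_mul_add (a := i - i₀ - kq) hu0
       rw [Nat.add_mul, Nat.one_mul]
       exact this
     have e2 : (i - i₀ - kq) / u + 1 = n + 2 := by omega
     rw [e2] at e1
     have e3 : ((i - i₀ - kq : ℕ) : ℝ) < (n + 2) * u := by exact_mod_cast e1
     rw [Nat.cast_sub (by omega), Nat.cast_sub hii.le] at e3
     linarith only [hΔ, e3]
   -- the zone is not empty
   have hZcard : (N : ℝ) / (4 * Q) ≤ Zk.card := by
     have hsub : Finset.Icc (kq / 2 + 1) kq ⊆ Zk := by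
       intro k hk
       rw [Finset.mem_Icc] at hk
       rw [hZk, Finset.mem_filter, Finset.mem_range]
       have e1 : Q * k ≤ N := by
         have : k ≤ N / Q := hk.2
         rw [Nat.le_div_iff_mul_le hQ0, Nat.mul_comm] at this
         exact this
       have e2 : kq + 1 ≤ 2 * k := by omega
       have e3 : N < (kq + 1) * Q := by
         have := Nat.lt_div_mul_add (a := N) hQ0
         rw [Nat.add_mul, Nat.one_mul]
         exact this
       refine ⟨?_, ?_, e1⟩
       · have : k ≤ Q * k := Nat.le_mul_of_pos_left k hQ0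
         omega
       · have e4 : (kq + 1) * Q ≤ 2 * k * Q := Nat.mul_le_mul_right Q e2
         have e5 : 2 * k * Q = 2 * Q * k := by ring
         omega
     have hc := Finset.card_le_card hsub
     rw [Nat.card_Icc] at hc
     have e1 : kq ≤ 2 * Zk.card := by omega
     have e2 : (N : ℝ) < (kq + 1) * Q := by
       have := Nat.lt_div_mul_add (a := N) hQ0
       have h' : N < (kq + 1) * Q := by rw [Nat.add_mul, Nat.one_mul]; exact this
       exact_mod_cast h'
     have e3 : (kq : ℝ) ≤ 2 * Zk.card := by exact_mod_cast e1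
     have e4 : 4 ≤ kq := by
       rw [hkq, Nat.le_div_iff_mul_le hQ0]
       omega
     have e5 : (4 : ℝ) ≤ kq := by exact_mod_cast e4
     rw [div_le_iff₀ (by positivity)]
     have e6 : ((kq : ℝ) + 1) * Q ≤ 4 * Zk.card * Q :=
       mul_le_mul_of_nonneg_right (by linarith only [e3, e5]) rQ.le
     linarith only [e2, e6]
   exact by
    have hZ0 : 0 < Zk.card := by
      have : (0 : ℝ) < N / (4 * Q) := by positivity
      have : (0 : ℝ) < Zk.card := by linarith only [hZcard, this]
      exact_mod_cast this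
    -- rows
    have hPp : ∀ w k, w + k ≤ i → T (w + k) w < p := by
      intro w k hwk
      have e1 := mono (w + k) (w + k) w (w + k) le_rfl (Nat.le_add_right _ _) (by omega)
      have e2 := mono (w + k) i (w + k) i hwk hwk hiN
      omega
    have hPp0 : ∀ w k, i₀ ≤ w → w + k ≤ i → p₀ ≤ T (w + k) w := by
      intro w k hw hwk
      have e1 := mono i₀ (w + k) i₀ w (by omega) hw (by omega)
      omega
    set RB : ℕ → Prop := fun P => ρ < P + b₂ ∨ P < p₀ + b₁ ∨ P / L' ∈ JJ with hRB
    -- the bad windows for a given `k`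
    have hrow : ∀ k ∈ Zk, (((range (i + 1)).filter fun w => i₀ ≤ w ∧ w + k ≤ i ∧
        RB (T (w + k) w)).card : ℝ) ≤ 3 * Δ / 40 := by
      intro k hk
      have hkq' := hkle k hk
      have hki : k ≤ i := by omega
      have hh : ∀ w w', i₀ ≤ w → w ≤ w' → w' ≤ i - k →
          T (w + k) w + (w' - w) ≤ T (w' + k) w' + 1 := by
        intro w w' hw hww hw'
        have t1 := hPp w' k (by omega)
        by_cases hc : T (w + k) w + (w' - w) ≤ ρ
        · have t2 := tri (w + k) w (w' - w) (Nat.le_add_right _ _) (by omega) hc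
          have e1 : w + k + (w' - w) = w' + k := by omega
          have e2 : w + (w' - w) = w' := by omega
          rw [e1, e2] at t2
          exact t2
        · exfalso
          push Not at hc
          have t3 := hPp w k (by omega)
          obtain ⟨v, hv⟩ : ∃ v, v = ρ - T (w + k) w := ⟨_, rfl⟩
          have t2 := tri (w + k) w v (Nat.le_add_right _ _) (by omega) (by omega)
          have t4 := mono (w + k + v) (w' + k) (w + v) w' (by omega) (by omega) (by omega)
          omega
      have hcnt := rows_count2 (h := fun w => T (w + k) w) (i₀ := i₀) (i₁ := i - k) (L := L')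
        (b₁ := b₁) (b₂ := b₂) (p₀ := p₀) (ρ := ρ) hL hh
        (fun w _ hw' => by have := hPp w k (by omega); omega)
        (fun w hw hw' => hPp0 w k hw (by omega)) JJ
      have hsub : ((range (i + 1)).filter fun w => i₀ ≤ w ∧ w + k ≤ i ∧ RB (T (w + k) w)) ⊆
          ((range (i - k + 1)).filter fun w => i₀ ≤ w ∧ (ρ < T (w + k) w + b₂ ∨
            T (w + k) w < p₀ + b₁ ∨ T (w + k) w / L' ∈ JJ)) := by
        intro w hw
        rw [Finset.mem_filter, Finset.mem_range] at hw ⊢
        exact ⟨by omega, hw.2.1, hw.2.2.2⟩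
      have h7 := (Finset.card_le_card hsub).trans hcnt
      have h8 : (((range (i + 1)).filter fun w => i₀ ≤ w ∧ w + k ≤ i ∧
        RB (T (w + k) w)).card : ℝ) ≤ (b₂ + 1) + (b₁ + 1) + JJ.card * (L' + 1) := by
        exact_mod_cast h7
      linarith only [c5, h8]
    -- all bad pairs
    exact by
     set W := ((range (i + 1)) ×ˢ Zk).filter fun x : ℕ × ℕ => i₀ ≤ x.1 ∧ x.1 + x.2 + u ≤ i ∧
       ¬ (T (x.1 + x.2) x.1 + K * u ≤ T (x.1 + x.2 + u) (x.1 + u)) with hW
     set R := ((range (i + 1)) ×ˢ Zk).filter fun x : ℕ × ℕ => i₀ ≤ x.1 ∧ x.1 + x.2 ≤ i ∧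
       RB (T (x.1 + x.2) x.1) with hR
     have hWsub : W ⊆ X ∪ R := by
       rintro ⟨w, k⟩ hx
       rw [hW, Finset.mem_filter, Finset.mem_product, Finset.mem_range] at hx
       obtain ⟨⟨x1, x2⟩, x3, x4, x5⟩ := hx
       simp only at x1 x2 x3 x4 x5
       by_cases hrb : RB (T (w + k) w)
       · refine Finset.mem_union_right _ ?_
         rw [hR, Finset.mem_filter, Finset.mem_product, Finset.mem_range]
         exact ⟨⟨x1, x2⟩, x3, by omega, hrb⟩
       · refine Finset.mem_union_left _ ?_
         rw [hZk, Finset.mem_filter, Finset.mem_range] at x2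
         by_contra hnX
         simp only [hRB, not_or, not_lt] at hrb
         exact x5 (hstep w k x2.2.1 x2.2.2 x3 x4 (hPp w k (by omega)) hrb.2.1 hrb.1 hrb.2.2 hnX)
     have hRc : (R.card : ℝ) ≤ Zk.card * (3 * Δ / 40) := by
       have e1 : R.card = ∑ k ∈ Zk, ((range (i + 1)).filter fun w => i₀ ≤ w ∧ w + k ≤ i ∧
           RB (T (w + k) w)).card := by
         rw [hR, Finset.card_filter, Finset.sum_product_right]
         refine Finset.sum_congr rfl fun k _ => ?_
         rw [Finset.card_filter]
       rw [e1]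
       push_cast
       calc _ ≤ ∑ _k ∈ Zk, (3 * Δ / 40) := Finset.sum_le_sum hrow
         _ = _ := by rw [Finset.sum_const, nsmul_eq_mul]
     have hWc : (W.card : ℝ) ≤ ε * N * (N / Q) + Zk.card * (3 * Δ / 40) := by
       have e1 : W.card ≤ X.card + R.card :=
         (Finset.card_le_card hWsub).trans (Finset.card_union_le _ _)
       have e2 : (W.card : ℝ) ≤ X.card + R.card := by exact_mod_cast e1
       linarith only [hX, hRc, e2]
     -- the sequences
     exact by
      set I := Zk ×ˢ range u with hI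
      set w : ℕ × ℕ → ℕ → ℕ := fun x j => i₀ + x.2 + j * u with hw
      set h : ℕ × ℕ → ℕ → ℤ := fun x j => (T (w x j + x.1) (w x j) : ℕ) with hh
      set Bd := (I ×ˢ range n).filter fun y : (ℕ × ℕ) × ℕ =>
        ¬ (h y.1 y.2 + (K * u : ℕ) ≤ h y.1 (y.2 + 1)) with hBd
      have hwle : ∀ x ∈ I, ∀ j ≤ n, i₀ ≤ w x j ∧ w x j + x.1 ≤ i := by
        intro x hx j hj
        rw [hI, Finset.mem_product, Finset.mem_range] at hx
        have e1 := hkle x.1 hx.1
        have e2 : j * u ≤ n * u := Nat.mul_le_mul_right u hj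
        simp only [hw]
        omega
      have hwsucc : ∀ (x : ℕ × ℕ) (j : ℕ), w x (j + 1) = w x j + u := by
        intro x j
        simp only [hw]
        ring
      have hIne : I.Nonempty := by
        rw [hI, ← Finset.card_pos, Finset.card_product, Finset.card_range]
        exact Nat.mul_pos hZ0 hu0
      obtain ⟨x, hx, β, hβ1, hβ2⟩ := growth_avg I hIne (h := h) (D := (K * u : ℕ)) (n := n)
        (by positivity) Bd
        (fun x hx j hj hb => by
          by_contra hc
          exact hb (Finset.mem_filter.2 ⟨Finset.mem_product.2 ⟨hx, Finset.mem_range.2 hj⟩, hc⟩))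
        (fun x hx j hj => by
          have e1 := hwle x hx (j + 1) (by omega)
          have e2 := mono (w x j + x.1) (w x (j + 1) + x.1) (w x j) (w x (j + 1))
            (by rw [hwsucc]; omega) (by rw [hwsucc]; omega) (by omega)
          simp only [hh]
          exact_mod_cast e2)
      exact by
       have hBdW : Bd.card ≤ W.card := by
         refine Finset.card_le_card_of_injOn (fun y => (w y.1 y.2, y.1.1)) ?_ ?_
         · rintro ⟨x, j⟩ hy
           rw [Finset.mem_coe, hBd, Finset.mem_filter, Finset.mem_product, Finset.mem_range] at hy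
           obtain ⟨⟨y1, y2⟩, y3⟩ := hy
           simp only at y1 y2 y3
           have e1 := hwle x y1 j (by omega)
           rw [hI, Finset.mem_product, Finset.mem_range] at y1
           rw [Finset.mem_coe, hW, Finset.mem_filter, Finset.mem_product, Finset.mem_range]
           refine ⟨⟨?_, y1.1⟩, e1.1, ?_, fun hc => y3 ?_⟩
           · show w x j < i + 1
             omega
           · show w x j + x.1 + u ≤ i
             have e3 := hwle x (Finset.mem_product.2 ⟨y1.1, Finset.mem_range.2 y1.2⟩) (j + 1) (by omega)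
             have e4 := hwsucc x j
             omega
           · simp only at hc
             simp only [hh, hwsucc]
             have e2 : w x j + u + x.1 = w x j + x.1 + u := by ring
             rw [e2]
             exact_mod_cast hc
         · rintro ⟨⟨k, r⟩, j⟩ hy ⟨⟨k', r'⟩, j'⟩ hy' heq
           rw [Finset.mem_coe, hBd, Finset.mem_filter, Finset.mem_product] at hy hy'
           have y1 := hy.1.1
           have y1' := hy'.1.1
           rw [hI, Finset.mem_product, Finset.mem_range] at y1 y1'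
           simp only [hw, Prod.mk.injEq] at heq
           simp only at y1 y1'
           obtain ⟨q1, q2⟩ := heq
           have q3 : r + j * u = r' + j' * u := by omega
           have q4 : r = r' := by
             have a1 : (r + j * u) % u = r := by
               rw [Nat.add_mul_mod_self_right, Nat.mod_eq_of_lt y1.2]
             have a2 : (r' + j' * u) % u = r' := by
               rw [Nat.add_mul_mod_self_right, Nat.mod_eq_of_lt y1'.2]
             rw [← a1, q3, a2]
           have q5 : j = j' := by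
             rw [q4] at q3
             exact Nat.eq_of_mul_eq_mul_right hu0 (by omega)
           rw [q2, q4, q5]
       -- the arithmetic
       exact by
        have hIc : I.card = Zk.card * u := by rw [hI, Finset.card_product, Finset.card_range]
        have f1 : (Zk.card : ℝ) * u * β ≤ ε * N * (N / Q) + Zk.card * (3 * Δ / 40) := by
          have e1 : (I.card : ℝ) * β ≤ W.card := by exact_mod_cast hβ1.trans hBdW
          rw [hIc] at e1
          push_cast at e1
          linarith only [hWc, e1]
        have rZ : (0 : ℝ) < Zk.card := by exact_mod_cast hZ0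
        have f2 : (u : ℝ) * β ≤ Δ / 20 + 3 * Δ / 40 := by
          have e1 : ε * N * (N / Q) ≤ Zk.card * (Δ / 20) := by
            have e2 : (N : ℝ) / Q ≤ 4 * Zk.card := by
              rw [div_le_iff₀ (by positivity)] at hZcard
              rw [div_le_iff₀ rQ]
              linarith only [hZcard]
            have e4 : ε * N * (N / Q) ≤ Δ / 80 * (4 * Zk.card) :=
              mul_le_mul c3 e2 (by positivity) (by positivity)
            linarith only [e4]
          have e5 : (Zk.card : ℝ) * (u * β) ≤ Zk.card * (Δ / 20 + 3 * Δ / 40) := by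
            have : (Zk.card : ℝ) * (u * β) = Zk.card * u * β := by ring
            rw [this]
            linarith only [f1, e1]
          exact le_of_mul_le_mul_left e5 rZ
        have f3 : h x n < p := by
          have e1 := hwle x hx n le_rfl
          have e2 := hPp (w x n) x.1 e1.2
          simp only [hh]
          exact_mod_cast e2
        have f4 : (p₀ : ℤ) ≤ h x 0 := by
          have e1 := hwle x hx 0 (Nat.zero_le _)
          have e2 := hPp0 (w x 0) x.1 e1.1 e1.2
          simp only [hh]
          exact_mod_cast e2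
        exact by
         have f5 : (p₀ : ℤ) + (K * u : ℕ) * (n - β) < p := by linarith only [hβ2, f3, f4]
         have f6 : (p₀ : ℝ) + K * u * (n - β) < p := by
           have : (((p₀ : ℤ) + (K * u : ℕ) * (n - β) : ℤ) : ℝ) < ((p : ℤ) : ℝ) := by exact_mod_cast f5
           push_cast at this
           linarith only [this]
         have f7 : (K : ℝ) * (3 / 4 * Δ) ≤ K * (u * n - u * β) := by
           refine mul_le_mul_of_nonneg_left ?_ (by linarith only [rK])
           have : (n : ℝ) * u = u * n := by ring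
           linarith only [c2, c1, ru0, hnu2, f2]
         have f8 : (K : ℝ) * (u * n - u * β) = K * u * (n - β) := by ring
         have f9 : 1 / 2 * (K : ℝ) * Δ < K * (3 / 4 * Δ) := by
           have : 0 < (K : ℝ) * Δ := mul_pos (by linarith only [rK]) rΔ0
           linarith only [h6, f6, f7, this]
         linarith only [h6, f6, f7, f9]

end Pool.SLPT
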