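import Pool.Agent.H76.SLP.Stmts
import Pool.Agent.H76.SLP.Slope2
import Pool.Agent.H76.SLP.Lev
import Pool.Agent.H18.PB.Row

/-!
# Plan B, the slope law: the assembly
-/

set_option autoImplicit false

namespace Pool.PB

open Finset Real
open Pool.Agent.H49.Ent Pool.Agent.H32.Dense Pool.STK Pool.KA Pool.KSAT Pool.K2S

variable {m J : ℕ}

theorem Zr.mono_c {F : Fam m J} {c c' : ℝ} {N p₁ p₂ : ℕ} {A : F.Ω → Prop} (hc : c' ≤ c)
    (hp : p₁ ≤ p₂) (h : Zr F c N p₁ p₂ A) : Zr F c' N p₁ p₂ A := by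
  unfold Zr Zm at h ⊢
  refine h.trans (mul_le_mul_of_nonneg_right (by linarith only [hc]) ?_)
  have : ((p₁ * (J / N) : ℕ) : ℝ) ≤ (p₂ * (J / N) : ℕ) := by
    exact_mod_cast Nat.mul_le_mul_right _ hp
  exact mul_nonneg (by linarith only [this]) (Real.log_nonneg (by norm_num))

theorem Pls.mono_c {F : Fam m J} {c c' : ℝ} {N p : ℕ} {A : F.Ω → Prop} (hc : c' ≤ c)
    (h : Pls F c N p A) : Pls F c' N p A :=
  fun p' h1 h2 => (h p' h1 h2).mono_c hc h1.le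

/-- The trivial law along the diagonals. -/
theorem thrT_tri {F : Fam m J} {i₁ : Fin m} {N ρ K : ℕ} {A : F.Ω → Prop} (hN : 0 < N)
    (hJ : N ≤ J) (hρN : ρ ≤ N)
    (hR : ∀ a w v p : ℕ, w ≤ a → a + v ≤ ρ → p + v ≤ ρ →
      Tb F i₁ (ρ * (J / N)) K (a * (J / N)) (w * (J / N)) (p * (J / N)) A →
      Tb F i₁ (ρ * (J / N)) K ((a + v) * (J / N)) (w * (J / N)) ((p + v - 1) * (J / N)) A)
    (a w v : ℕ) (hwa : w ≤ a) (hav : a + v ≤ ρ) (hv : thrT F i₁ N ρ K A a w + v ≤ ρ) :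
    thrT F i₁ N ρ K A a w + v ≤ thrT F i₁ N ρ K A (a + v) (w + v) + 1 := by
  rcases Nat.eq_zero_or_pos v with h0 | h0
  · rw [h0]
    simp
  rcases Nat.eq_zero_or_pos (thrT F i₁ N ρ K A a w) with h | h
  · have := thrT_trivial (F := F) (i₁ := i₁) (N := N) (ρ := ρ) (K := K) (A := A) (a := a + v)
      (w := w + v) hN hJ (by omega) (by omega) (by omega)
    omega
  · have h1 := hR a w v _ hwa hav hv (thrT_spec h)
    have h2 := Tb.mono (r' := ρ * (J / N)) (K' := K) (a' := (a + v) * (J / N))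
      (w' := (w + v) * (J / N)) (P' := (thrT F i₁ N ρ K A a w + v - 1) * (J / N))
      le_rfl le_rfl le_rfl (Nat.mul_le_mul_right _ (Nat.le_add_right _ _))
      ((Nat.mul_le_mul_right _ (by omega : w + v ≤ N)).trans (Nat.mul_div_le J N)) le_rfl h1
    have h3 := le_thrT (by omega) h2
    omega

/-- The deficits of a block. -/
theorem Zr_bs {F : Fam m J} {A : F.Ω → Prop}
    (hlaw : IsLaw (Pool.Agent.H49.Ent.cond F.p A True)) {N l L : ℕ} {c : ℝ} (hu : 0 < J / N) :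
    Zr F c N (l * L) ((l + 1) * L) A ↔ c * L ≤ bs (DD F A N) L l := by
  rw [Zr_iff F hlaw hu (Nat.mul_le_mul_right _ (Nat.le_succ l)), bs_Ico]
  have : ((((l + 1) * L : ℕ) : ℝ) - ((l * L : ℕ) : ℝ)) = L := by push_cast; ring
  rw [this]

open Classical in
/-- The number of pairs, from the number of radii for each window. -/
theorem card_pairs {N : ℕ} {x : ℝ} (S : ℕ → Finset ℕ) (h : ∀ w < N, ((S w).card : ℝ) ≤ x) :
    (((range N ×ˢ range (N + 1)).filter fun y : ℕ × ℕ => y.1 + y.2 ∈ S y.1).card : ℝ) ≤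
      N * x := by
  have e1 : ((range N ×ˢ range (N + 1)).filter fun y : ℕ × ℕ => y.1 + y.2 ∈ S y.1).card =
      ∑ w ∈ range N, ((range (N + 1)).filter fun k => w + k ∈ S w).card := by
    rw [Finset.card_filter, Finset.sum_product]
    refine Finset.sum_congr rfl fun w _ => ?_
    rw [Finset.card_filter]
  rw [e1]
  push_cast
  have e2 : ∀ w ∈ range N, ((((range (N + 1)).filter fun k => w + k ∈ S w).card : ℕ) : ℝ) ≤ x := by
    intro w hw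
    refine le_trans ?_ (h w (Finset.mem_range.1 hw))
    have : ((range (N + 1)).filter fun k => w + k ∈ S w).card ≤ (S w).card := by
      refine Finset.card_le_card_of_injOn (fun k => w + k) ?_ ?_
      · intro k hk
        exact (Finset.mem_filter.1 hk).2
      · intro a _ b _ hab
        simp only at hab
        omega
    exact_mod_cast this
  refine (Finset.sum_le_sum e2).trans (le_of_eq ?_)
  rw [Finset.sum_const, Finset.card_range, nsmul_eq_mul]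

open Classical in
/-- The small gaps at a fixed window. -/
noncomputable def bgap (F : Fam m J) (i₁ : Fin m) (c : ℝ) (N L ρ K : ℕ) (γ : ℝ)
    (A : F.Ω → Prop) (w : ℕ) : Finset ℕ :=
  (range N).filter fun a => w ≤ a ∧
    (thrT F i₁ N ρ K A a a : ℝ) ≤ thrT F i₁ N ρ K A a w + γ * N ∧
    (thrT F i₁ N ρ K A a w : ℝ) + 2 * γ * N ≤ ρ ∧
    Zr F c N (thrT F i₁ N ρ K A a w / L * L) ((thrT F i₁ N ρ K A a w / L + 1) * L) A

open Classical in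
/-- The assembly for one event. -/
theorem slp_event {F : Fam m J} {A : F.Ω → Prop}
    (hlaw : IsLaw (Pool.Agent.H49.Ent.cond F.p A True)) {i₁ : Fin m}
    {N E q₀ B J₀ L K Q U ρ i₀ i p₀ p B₀ : ℕ} {c γ ε₁ ν : ℝ} (hc : 0 < c) (hE : 0 < E)
    (hB : 0 < B) (hU : 0 < U) (hK : 0 < K) (hQ : 0 < Q) (hγ : 0 ≤ γ) (hJ₀ : 0 < J₀)
    (hν : ν = 1 / 2400)
    (hN : N = E * (q₀ * B ^ J₀) * L) (hJ : N ≤ J) (hρN : ρ ≤ N)
    (hL : 200 ≤ L) (hq₀ : 2000 ≤ q₀) (hq₀U : 100 * U ≤ q₀) (hLQ : 4 * Q ≤ L)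
    (hKB : 4 * B₀ ≤ K) (hQE : 100 * E ≤ Q) (hγE : γ * (2000 * E) ≤ 1)
    (hεE : ε₁ * (1000 * E) ≤ 1)
    (hJ₀E : 19200 * B * E * (m : ℝ) ^ 2 ≤ J₀ * c ^ 2)
    (k1 : 2 * i₀ + q₀ * B ^ J₀ * L ≤ 2 * i) (k2 : i ≤ p) (k4 : p + 1 ≤ ρ)
    (k5 : ρ ≤ p + L) (k6 : p ≤ p₀ + B₀ * (i - i₀))
    (hnb : (nbad F c (E * (q₀ * B ^ J₀)) L p₀ p A : ℝ) ≤ ν * (q₀ * B ^ J₀ : ℕ))
    (hR : ∀ a w v p : ℕ, w ≤ a → a + v ≤ ρ → p + v ≤ ρ →
      Tb F i₁ (ρ * (J / N)) K (a * (J / N)) (w * (J / N)) (p * (J / N)) A →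
      Tb F i₁ (ρ * (J / N)) K ((a + v) * (J / N)) (w * (J / N)) ((p + v - 1) * (J / N)) A)
    (hS : ∀ k < J₀, ((slx F i₁ (c / 4) N (B ^ (J₀ - 1 - k) * L) ρ K Q B U γ A).card : ℝ) ≤
      ε₁ * N * (N / Q))
    (hG : ∀ k < J₀, ∀ w < N,
      ((bgap F i₁ (c / 4) N (B ^ (J₀ - 1 - k) * L) ρ K γ A w).card : ℝ) ≤ ε₁ / Q * N)
    (h0 : p₀ ≤ thrT F i₁ N ρ K A i₀ i₀) : p ≤ thrT F i₁ N ρ K A (i - 1) (i - 1) := by
  have hN0 : 0 < N := by rw [hN]; positivity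
  have hu : 0 < J / N := Nat.div_pos hJ hN0
  have hm0 : (0 : ℝ) ≤ m := Nat.cast_nonneg m
  -- the level
  have hnb' : (((range (E * (q₀ * B ^ J₀))).filter fun l => p₀ < (l + 1) * L ∧ l * L ≤ p + L ∧
      bs (DD F A N) L l < c * L).card : ℝ) ≤ ν * (q₀ * B ^ J₀ : ℕ) := by
    refine le_trans (le_of_eq ?_) hnb
    unfold nbad
    congr 2
    refine Finset.filter_congr fun l _ => ?_
    rw [← hN, Zr_bs hlaw hu, not_le]
  obtain ⟨k, hk, l, hl, hNl, JJ, hJJ, hrow⟩ := Pool.SLPT.exists_lev (D := DD F A N)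
    (Bm := m) (DD_nonneg F hlaw hu) (DD_le F hlaw N) hc hE (by omega : 0 < q₀) hB hJ₀
    (by omega : 0 < L) hN hnb'
  have hl0 : 0 < l := by rw [hl]; positivity
  have hBl : 0 < B * l := Nat.mul_pos hB hl0
  -- real versions
  obtain ⟨Y, hY⟩ : ∃ Y : ℝ, Y = (q₀ * B ^ J₀ * L : ℕ) := ⟨_, rfl⟩
  have rE : (1 : ℝ) ≤ E := by exact_mod_cast hE
  have rN : (N : ℝ) = E * Y := by rw [hN, hY]; push_cast; ring
  have rQ : (0 : ℝ) < Q := by exact_mod_cast hQ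
  have hBJ : 1 ≤ B ^ J₀ := Nat.one_le_pow _ _ hB
  have hq1 : L ≤ q₀ * B ^ J₀ * L := Nat.le_mul_of_pos_left _ (by positivity)
  have rY : (200 : ℝ) ≤ Y := by rw [hY]; exact_mod_cast hL.trans hq1
  have hqBl : q₀ * (B * l) ≤ q₀ * B ^ J₀ * L := by
    have e1 : B * l = B ^ (J₀ - k) * L := by
      rw [hl, ← Nat.mul_assoc, ← pow_succ']
      congr 2
      omega
    rw [e1]
    calc q₀ * (B ^ (J₀ - k) * L) ≤ q₀ * (B ^ J₀ * L) :=
          Nat.mul_le_mul_left _ (Nat.mul_le_mul_right _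
            (Nat.pow_le_pow_right hB (Nat.sub_le _ _)))
      _ = q₀ * B ^ J₀ * L := (Nat.mul_assoc _ _ _).symm
  have rBl : (2000 : ℝ) * (B * l : ℕ) ≤ Y := by
    rw [hY]
    exact_mod_cast (Nat.mul_le_mul_right (B * l) hq₀).trans hqBl
  have rUl : (100 : ℝ) * (U * l : ℕ) ≤ Y := by
    rw [hY]
    have e1 : 100 * (U * l) ≤ q₀ * (B * l) := by
      calc 100 * (U * l) = 100 * U * l := by ring
        _ ≤ q₀ * l := Nat.mul_le_mul_right _ hq₀U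
        _ ≤ q₀ * (B * l) := Nat.mul_le_mul_left _ (Nat.le_mul_of_pos_left _ hB)
    exact_mod_cast e1.trans hqBl
  have hi1 : 1 ≤ i := by omega
  have hii : i₀ < i - 1 := by omega
  obtain ⟨Δ, hΔ⟩ : ∃ Δ : ℝ, Δ = ((i - 1 : ℕ) : ℝ) - i₀ := ⟨_, rfl⟩
  have hΔ' : Δ = (i : ℝ) - 1 - i₀ := by rw [hΔ, Nat.cast_sub hi1, Nat.cast_one]
  have rΔ : Y - 2 ≤ 2 * Δ := by
    have : (2 * i₀ : ℝ) + Y ≤ 2 * i := by rw [hY]; exact_mod_cast k1
    linarith only [hΔ', this]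
  obtain ⟨g₂, hg₂⟩ : ∃ g₂ : ℕ, g₂ = ⌈2 * γ * N⌉₊ := ⟨_, rfl⟩
  have hg₂r : (g₂ : ℝ) ≤ 2 * γ * N + 1 := by
    rw [hg₂]
    exact (Nat.ceil_lt_add_one (by positivity)).le
  have hg₂l : 2 * γ * N ≤ g₂ := by rw [hg₂]; exact Nat.le_ceil _
  have hγY : 2 * γ * N ≤ Y / 1000 := by
    rw [rN]
    have e1 : γ * (2000 * E) * Y ≤ 1 * Y := mul_le_mul_of_nonneg_right hγE (by linarith only [rY])
    have e2 : 2 * γ * (E * Y) = γ * (2000 * E) * Y / 1000 := by ring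
    rw [e2]
    linarith only [e1]
  -- exceptional pairs
  obtain ⟨X₁, hX₁⟩ : ∃ X₁, X₁ = slx F i₁ (c / 4) N l ρ K Q B U γ A := ⟨_, rfl⟩
  obtain ⟨X₂, hX₂⟩ : ∃ X₂, X₂ = (range N ×ˢ range (N + 1)).filter fun y : ℕ × ℕ =>
    y.1 + y.2 ∈ bgap F i₁ (c / 4) N l ρ K γ A y.1 := ⟨_, rfl⟩
  have hX₁c : (X₁.card : ℝ) ≤ ε₁ * N * (N / Q) := by
    rw [hX₁, hl]
    exact hS k hk
  have hX₂c : (X₂.card : ℝ) ≤ ε₁ * N * (N / Q) := by
    rw [hX₂]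
    refine (card_pairs _ fun w hw => ?_).trans (le_of_eq (by ring : (N : ℝ) * (ε₁ / Q * N) = _))
    rw [hl]
    exact hG k hk w hw
  by_contra hcon
  push Not at hcon
  refine Pool.SLPT.slp_core2 (T := thrT F i₁ N ρ K A) (N := N) (Q := Q) (L' := B * l)
    (u := U * l) (K := K) (i₀ := i₀) (i := i - 1) (p₀ := p₀) (p := p) (ρ := ρ)
    (b₁ := 2 * (B * l)) (b₂ := 2 * (B * l) + g₂) (Δ := Δ) (ε := 2 * ε₁) JJ (X₁ ∪ X₂)
    (Nat.mul_pos hU hl0) hBl hK hQ ?_ ?_ (by omega) (by omega) hii k4 hΔ ?_ h0 hcon ?_ ?_ ?_ ?_ ?_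
    ?_ ?_
  · intro a a' w w' ha hw hw'
    exact thrT_mono ha hw hw'
  · exact thrT_tri hN0 hJ hρN hR
  · -- the slope
    have e1 : (p : ℝ) ≤ p₀ + B₀ * ((i : ℝ) - i₀) := by
      have : ((i - i₀ : ℕ) : ℝ) = (i : ℝ) - i₀ := Nat.cast_sub (by omega)
      rw [← this]
      exact_mod_cast k6
    have e2 : (4 * B₀ : ℝ) ≤ K := by exact_mod_cast hKB
    have e3 : (i : ℝ) - i₀ ≤ 2 * Δ := by rw [hΔ']; linarith only [rY, hΔ', rΔ]
    have e4 : (0 : ℝ) ≤ B₀ := Nat.cast_nonneg _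
    have e5 : (B₀ : ℝ) * ((i : ℝ) - i₀) ≤ B₀ * (2 * Δ) := mul_le_mul_of_nonneg_left e3 e4
    have e6 : (4 * B₀ : ℝ) * Δ ≤ K * Δ := mul_le_mul_of_nonneg_right e2 (by linarith only [rY, rΔ])
    linarith only [e1, e5, e6]
  · -- the step
    intro w a' z1 z2 hw hwi hPp hPb hPt hPJ hX
    have hP1 : thrT F i₁ N ρ K A (w + a') w + 2 * (B * l) ≤ p + L := by omega
    have hnf := hrow _ hPb hP1 hPJ
    rw [Finset.mem_union, not_or] at hX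
    obtain ⟨hXa, hXb⟩ := hX
    have hNf : Nf F (c / 4) N l B (thrT F i₁ N ρ K A (w + a') w) A := by
      intro j j1 j2 j3
      rw [Zr_bs hlaw hu]
      exact hnf j j1 j2 j3
    have hPN : thrT F i₁ N ρ K A (w + a') w < N := by omega
    have hblk : (thrT F i₁ N ρ K A (w + a') w / l + 1) * l ≤ N := by
      rw [hNl]
      refine Nat.mul_le_mul_right l ?_
      rw [Nat.succ_le_iff, Nat.div_lt_iff_lt_mul hl0, ← hNl]
      exact hPN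
    have hwN : w < N := by omega
    have haN : a' < N + 1 := by omega
    by_contra hfail
    push Not at hfail
    by_cases hgap : (thrT F i₁ N ρ K A (w + a') (w + a') : ℝ) ≤
        thrT F i₁ N ρ K A (w + a') w + γ * N
    · refine hXb ?_
      rw [hX₂, Finset.mem_filter, Finset.mem_product, Finset.mem_range, Finset.mem_range]
      refine ⟨⟨hwN, haN⟩, ?_⟩
      show w + a' ∈ bgap F i₁ (c / 4) N l ρ K γ A w
      unfold bgap
      rw [Finset.mem_filter, Finset.mem_range]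
      refine ⟨by omega, by omega, hgap, ?_, ?_⟩
      · have : ((thrT F i₁ N ρ K A (w + a') w + (2 * (B * l) + g₂) : ℕ) : ℝ) ≤ ρ := by
          exact_mod_cast hPt
        push_cast at this
        have h1 : (0 : ℝ) ≤ 2 * ((B : ℝ) * l) := by positivity
        linarith only [hg₂l, this, h1]
      · exact hNf _ (by omega) (by omega) hblk
    · refine hXa ?_
      push Not at hgap
      rw [hX₁]
      unfold slx
      rw [Finset.mem_filter, Finset.mem_product, Finset.mem_range, Finset.mem_range]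
      refine ⟨⟨hwN, haN⟩, thrT F i₁ N ρ K A (w + a') w, rfl, ⟨z1, z2⟩, ?_, ?_, hNf, hgap.le, hfail⟩
      · show w + a' + U * l ≤ ρ
        omega
      · omega
  · -- the number of exceptional pairs
    have e1 : ((X₁ ∪ X₂).card : ℝ) ≤ X₁.card + X₂.card := by
      exact_mod_cast Finset.card_union_le _ _
    linarith only [hX₁c, hX₂c, e1]
  · -- `N / Q`
    have e1 : ((N / Q : ℕ) : ℝ) ≤ N / Q := Nat.cast_div_le
    have e2 : (N : ℝ) / Q ≤ Y / 100 := by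
      rw [div_le_div_iff₀ rQ (by norm_num), rN]
      have : (100 * E : ℝ) ≤ Q := by exact_mod_cast hQE
      have := mul_le_mul_of_nonneg_left this (by linarith only [rY] : (0 : ℝ) ≤ Y)
      linarith only [this]
    linarith only [rY, rΔ, e1, e2]
  · linarith only [rY, rUl, rΔ]
  · -- `ε N`
    rw [rN]
    have e1 : ε₁ * (1000 * E) * Y ≤ 1 * Y := mul_le_mul_of_nonneg_right hεE (by linarith only [rY])
    have e2 : 2 * ε₁ * (E * Y) = ε₁ * (1000 * E) * Y / 500 := by ring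
    rw [e2]
    linarith only [rY, rΔ, e1]
  · -- the exceptional rows
    have e1 : (1 : ℝ) ≤ (B * l : ℕ) := by exact_mod_cast hBl
    have e2 : (JJ.card : ℝ) * ((B * l : ℕ) + 1) ≤ 2 * (JJ.card * (B * l : ℕ)) := by
      have : (0 : ℝ) ≤ JJ.card := Nat.cast_nonneg _
      have := mul_le_mul_of_nonneg_left e1 this
      linarith only [this]
    have e3 : 16 * B * N * (m : ℝ) ^ 2 / (J₀ * c ^ 2) ≤ Y / 1200 := by
      have rJ : (0 : ℝ) < J₀ := by exact_mod_cast hJ₀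
      rw [div_le_div_iff₀ (by positivity) (by norm_num), rN]
      have := mul_le_mul_of_nonneg_right hJ₀E (by linarith only [rBl, e1] : (0 : ℝ) ≤ Y)
      calc 16 * B * (E * Y) * (m : ℝ) ^ 2 * 1200 = 19200 * B * E * (m : ℝ) ^ 2 * Y := by ring
        _ ≤ J₀ * c ^ 2 * Y := this
        _ = _ := by ring
    have e4 : 2 * ν * (q₀ * B ^ J₀ * L : ℕ) = Y / 1200 := by rw [← hY, hν]; ring
    rw [e4] at hJJ
    push_cast at *
    linarith only [rΔ, hg₂r, hγY, e3, hJJ, rBl, e1, e2]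
  · -- `4 Q ≤ N`
    have : L ≤ N := by rw [hN]; exact Nat.le_mul_of_pos_left _ (by positivity)
    omega

/-- The claims hold on events of positive probability. -/
theorem clg_law (S : FCl m) :
    Clg S (fun _ F A => IsLaw (Pool.Agent.H49.Ent.cond F.p A True)) :=
  Clg.of one_pos 0 fun _ _ F _ hS =>
    isLaw_cond F.isLaw (lt_of_lt_of_le (Real.exp_pos _) hS.2)

/-- The trivial laws at a fixed window, all at once. -/
theorem rad_clg {S : FCl m} (hRAD : RADS S) {h₁ X : ℝ} (hh₁ : 0 < h₁) (hX : 0 < X) {K : ℕ}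
    (hK : 1 ≤ K) : ∃ N₁ : ℕ, ∀ N ≥ N₁, ∀ (i₁ : Fin m) (ρ : ℕ), (ρ : ℝ) + X * N ≤ N →
    Clg S (fun J F A => Ch F i₁ ⌊h₁ * J⌋₊ A →
      ∀ a w v p : ℕ, w ≤ a → a + v ≤ ρ → p + v ≤ ρ →
      Tb F i₁ (ρ * (J / N)) K (a * (J / N)) (w * (J / N)) (p * (J / N)) A →
      Tb F i₁ (ρ * (J / N)) K ((a + v) * (J / N)) (w * (J / N)) ((p + v - 1) * (J / N)) A) := by
  obtain ⟨N₁, hR⟩ := hRAD h₁ X hh₁ hX K hK
  refine ⟨N₁, fun N hN i₁ ρ hρ => ?_⟩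
  have cR : Clg S (fun J F A => ∀ v : Fin (ρ + 1) × Fin (ρ + 1) × Fin (ρ + 1) × Fin (ρ + 1),
      ((v.2.1 : ℕ) ≤ (v.1 : ℕ) ∧ (v.1 : ℕ) + (v.2.2.1 : ℕ) ≤ ρ ∧
        (v.2.2.2 : ℕ) + (v.2.2.1 : ℕ) ≤ ρ) →
      (Ch F i₁ ⌊h₁ * J⌋₊ A →
      Tb F i₁ (ρ * (J / N)) K ((v.1 : ℕ) * (J / N)) ((v.2.1 : ℕ) * (J / N))
        ((v.2.2.2 : ℕ) * (J / N)) A →
      Tb F i₁ (ρ * (J / N)) K (((v.1 : ℕ) + (v.2.2.1 : ℕ)) * (J / N))
        ((v.2.1 : ℕ) * (J / N)) (((v.2.2.2 : ℕ) + (v.2.2.1 : ℕ) - 1) * (J / N)) A)) :=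
    Clg.finite fun v => Clg.cnd fun h => hR N hN i₁ ρ v.1 v.2.1 v.2.2.1 v.2.2.2 hρ h.1
      h.2.1 h.2.2
  refine Clg.mono (J₂ := 0) cR ?_
  intro J _ F A h hCh a w v p h1 h2 h3
  exact h ⟨⟨a, by omega⟩, ⟨w, by omega⟩, ⟨v, by omega⟩, ⟨p, by omega⟩⟩ ⟨h1, h2, h3⟩ hCh

open Classical in
/-- **(SLP)** from its four parts. -/
theorem slp_of' {S : FCl m} (hRAD : RADS S) (hBFL : BFLW S) (hSLO : SLOT S) (hCNV : CNVS S) :
    SLP S := by
  intro c h₁ X hc hh₁ hX B₀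
  refine ⟨1 / 2400, by norm_num, 1, fun E _ hE => ?_⟩
  have hc4 : 0 < c / 4 := by linarith only [hc]
  obtain ⟨K₁, hS₁⟩ := hSLO (c / 4) h₁ X hc4 hh₁ hX
  refine ⟨K₁ + 4 * B₀ + 1, fun K hK => ?_⟩
  have hK1 : 1 ≤ K := by omega
  have rE : (0 : ℝ) < E := by exact_mod_cast hE
  obtain ⟨ε₁, hε₁⟩ : ∃ ε₁ : ℝ, ε₁ = 1 / (1000 * E) := ⟨_, rfl⟩
  have hε0 : 0 < ε₁ := by rw [hε₁]; positivity
  obtain ⟨Q₀, hS₂⟩ := hS₁ K (by omega) ε₁ hε0
  obtain ⟨Q, hQ⟩ : ∃ Q, Q = Q₀ + 100 * E := ⟨_, rfl⟩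
  have hQ0 : 0 < Q := by omega
  have rQ : (0 : ℝ) < Q := by exact_mod_cast hQ0
  obtain ⟨γ, hγ0, hγ1, M₁, hB₁⟩ := hBFL (c / 4) h₁ X hc4 hh₁ hX K hK1 (ε₁ / Q)
    (1 / (2000 * E)) (by positivity) (by positivity)
  obtain ⟨B, U, hB, hU, M₂, hS₃⟩ := hS₂ Q (by omega) hQ0 γ hγ0
  obtain ⟨J₀, hJ₀⟩ := exists_nat_gt (19200 * B * E * (m : ℝ) ^ 2 / c ^ 2)
  have hJ₀0 : 0 < J₀ := by
    have : (0 : ℝ) < J₀ := lt_of_le_of_lt (by positivity) hJ₀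
    exact_mod_cast this
  have hJ₀E : 19200 * B * E * (m : ℝ) ^ 2 ≤ J₀ * c ^ 2 := by
    rw [div_lt_iff₀ (by positivity)] at hJ₀
    exact hJ₀.le
  obtain ⟨q₁, hq₁⟩ : ∃ q₁, q₁ = 500 + 25 * U + M₁ + M₂ := ⟨_, rfl⟩
  obtain ⟨q₀, hq₀⟩ : ∃ q₀, q₀ = 4 * q₁ := ⟨_, rfl⟩
  have hq₀0 : 0 < q₀ := by omega
  obtain ⟨Mk, hMk⟩ : ∃ Mk : ℕ → ℕ, Mk = fun k => E * q₁ * B ^ (k + 1) := ⟨_, rfl⟩
  have hMq : ∀ k, q₁ ≤ Mk k := by
    intro k
    rw [hMk]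
    calc q₁ ≤ E * q₁ := Nat.le_mul_of_pos_left _ hE
      _ ≤ E * q₁ * B ^ (k + 1) := Nat.le_mul_of_pos_right _ (by positivity)
  have hB₂ : ∀ k, ∃ L₁ : ℕ, ∀ L ≥ L₁, ∀ N : ℕ, N = 4 * Mk k * L →
      ∀ (i₁ : Fin m) (ρ w : ℕ), (ρ : ℝ) + X * N ≤ N → Clg S (fun J F A =>
        Ch F i₁ ⌊h₁ * J⌋₊ A → ((bgap F i₁ (c / 4) N L ρ K γ A w).card : ℝ) ≤ ε₁ / Q * N) :=
    fun k => hB₁ (4 * Mk k) (by have := hMq k; omega)
  have hS₄ : ∀ k, ∃ L₁ : ℕ, ∀ L ≥ L₁, ∀ N : ℕ, N = 4 * Mk k * L →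
      ∀ (i₁ : Fin m) (ρ : ℕ), (ρ : ℝ) + X * N ≤ N → Clg S (fun J F A =>
        Ch F i₁ ⌊h₁ * J⌋₊ A → Pls F (c / 4) N ρ A →
        ((slx F i₁ (c / 4) N L ρ K Q B U γ A).card : ℝ) ≤ ε₁ * N * (N / Q)) :=
    fun k => hS₃ (Mk k) (by have := hMq k; omega)
  choose LB hLB using hB₂
  choose LS hLS using hS₄
  obtain ⟨N₁, hR⟩ := rad_clg hRAD hh₁ hX hK1
  obtain ⟨N₂, hC⟩ := hCNV h₁ X hh₁ hX K
  refine ⟨q₀ * B ^ J₀, by positivity,
    (∑ k ∈ range J₀, LB k) + (∑ k ∈ range J₀, LS k) + N₁ + N₂ + 200 + 4 * Q, ?_⟩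
  intro L hL N hN i₁ i₀ i p₀ p ρ k1 k2 k3 k4 k5 k6 k7
  have hNL : L ≤ N := by
    rw [hN]
    exact Nat.le_mul_of_pos_left _ (by positivity)
  have hN0 : 0 < N := by omega
  have hρN : ρ ≤ N := by
    have h1 : (0 : ℝ) ≤ X * N := by positivity
    have : (ρ : ℝ) ≤ N := by linarith only [k7, h1]
    exact_mod_cast this
  have hlk : ∀ k < J₀, L ≤ B ^ (J₀ - 1 - k) * L := fun k _ =>
    Nat.le_mul_of_pos_left _ (by positivity)
  have hNk : ∀ k < J₀, N = 4 * Mk k * (B ^ (J₀ - 1 - k) * L) := by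
    intro k hk
    have e : B ^ J₀ = B ^ (k + 1) * B ^ (J₀ - 1 - k) := by
      rw [← pow_add]
      congr 1
      omega
    rw [hN, hMk, e, hq₀]
    ring
  -- the claims
  have cR := hR N (by omega) i₁ ρ k7
  have cS : Clg S (fun J F A => ∀ k < J₀, Ch F i₁ ⌊h₁ * J⌋₊ A → Pls F (c / 4) N ρ A →
      ((slx F i₁ (c / 4) N (B ^ (J₀ - 1 - k) * L) ρ K Q B U γ A).card : ℝ) ≤
        ε₁ * N * (N / Q)) :=
    Clg.all J₀ fun k hk => hLS k _ (by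
      have h1 := hlk k hk
      have h2 := Finset.single_le_sum (f := LS) (fun _ _ => Nat.zero_le _)
        (Finset.mem_range.2 hk)
      omega) N (hNk k hk) i₁ ρ k7
  have cB : Clg S (fun J F A => ∀ k < J₀, ∀ w < N, Ch F i₁ ⌊h₁ * J⌋₊ A →
      ((bgap F i₁ (c / 4) N (B ^ (J₀ - 1 - k) * L) ρ K γ A w).card : ℝ) ≤ ε₁ / Q * N) :=
    Clg.all J₀ fun k hk => Clg.all N fun w _ => hLB k _ (by
      have h1 := hlk k hk
      have h2 := Finset.single_le_sum (f := LB) (fun _ _ => Nat.zero_le _)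
        (Finset.mem_range.2 hk)
      omega) N (hNk k hk) i₁ ρ w k7
  have hqL : 0 < q₀ * B ^ J₀ * L := Nat.mul_pos (by positivity) (by omega)
  have hi1 : 1 ≤ i := by omega
  have cC : Clg S (fun J F A => Ch F i₁ ⌊h₁ * J⌋₊ A →
      Tb F i₁ (ρ * (J / N)) K ((i - 1) * (J / N)) ((i - 1) * (J / N)) (p * (J / N)) A →
      Bl F i₁ N K ρ i p A) := by
    have := hC N (by omega) i₁ ρ (i - 1) p k7 (by omega) (by omega)
    rw [Nat.sub_add_cancel hi1] at this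
    exact this
  refine Clg.mono (J₂ := N) ((clg_law S).and ((cR.and cS).and (cB.and cC))) ?_
  rintro J hJ F A ⟨hlaw, ⟨dR, dS⟩, dB, dC⟩ hCh hPls hnb hBl
  -- the label at the start
  have h0 : p₀ ≤ thrT F i₁ N ρ K A i₀ i₀ := le_thrT (by omega) (Lab.tb hBl)
  have key := slp_event (F := F) (A := A) hlaw (i₁ := i₁) (N := N) (E := E) (q₀ := q₀) (B := B)
    (J₀ := J₀) (L := L) (K := K) (Q := Q) (U := U) (ρ := ρ) (i₀ := i₀) (i := i) (p₀ := p₀)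
    (p := p) (B₀ := B₀) (c := c) (γ := γ) (ε₁ := ε₁) (ν := 1 / 2400) hc hE hB hU (by omega) hQ0
    hγ0.le hJ₀0 rfl hN hJ hρN (by omega) (by omega) (by omega) (by omega) (by omega) (by omega)
    ?_ ?_ hJ₀E k1 k2 k4 k5 k6 hnb ?_ ?_ ?_ h0
  · -- the conclusion
    refine dC hCh (thrT_lab (show i - 1 ≤ N by omega) key ?_)
    omega
  · calc γ * (2000 * E) ≤ 1 / (2000 * E) * (2000 * E) :=
        mul_le_mul_of_nonneg_right hγ1 (by positivity)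
      _ = 1 := by field_simp
  · rw [hε₁]
    exact le_of_eq (by field_simp)
  · exact dR hCh
  · intro k hk
    exact dS k hk hCh (hPls.mono_c (by linarith only [hc]))
  · intro k hk w hw
    exact dB k hk w hw hCh

theorem slp_of {S : FCl m} (hRAD : RADS S) (hBFL : BFLW S) (hSLO : SLOS S) (hCNV : CNVS S) :
    SLP S := slp_of' hRAD hBFL hSLO.slot hCNV

end Pool.PB
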