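import Mathlib

/-!
# Slopes of thresholds: the combinatorial part

`T a w` is the precision of the tubes of radius `a` and window `w` (all in mesh units).
-/

set_option autoImplicit false

namespace Pool.SLPT

open Finset

/-- Growth of a sequence with few bad steps. -/
theorem growth0 {h : ℕ → ℤ} {D : ℤ} (hD : 0 ≤ D) (Bad : Finset ℕ) (n : ℕ)
    (hgood : ∀ j < n, j ∉ Bad → h j + D ≤ h (j + 1)) (hmono : ∀ j < n, h j ≤ h (j + 1)) :
    h 0 + D * (n - Bad.card) ≤ h n := by
  classical
  have key : ∀ m : ℕ, m ≤ n → h 0 + D * (m - (Bad.filter fun i => i < m).card) ≤ h m := by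
    intro m
    induction m with
    | zero => intro _; simp
    | succ m ih =>
      intro hm
      have ih' := ih (by omega)
      by_cases hb : m ∈ Bad
      · have hcard : (Bad.filter fun i => i < m + 1).card =
            (Bad.filter fun i => i < m).card + 1 := by
          have : (Bad.filter fun i => i < m + 1) = insert m (Bad.filter fun i => i < m) := by
            ext i
            simp only [Finset.mem_filter, Finset.mem_insert]
            constructor
            · rintro ⟨h1, h2⟩
              rcases Nat.lt_succ_iff_lt_or_eq.1 h2 with h3 | h3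
              · exact Or.inr ⟨h1, h3⟩
              · exact Or.inl h3
            · rintro (h | ⟨h1, h2⟩)
              · exact ⟨h ▸ hb, by omega⟩
              · exact ⟨h1, by omega⟩
          rw [this, Finset.card_insert_of_notMem (by simp)]
        rw [hcard]
        push_cast
        have h1 := hmono m (by omega)
        have : D * ((m : ℤ) + 1 - (((Bad.filter fun i => i < m).card : ℤ) + 1)) =
            D * (m - (Bad.filter fun i => i < m).card) := by ring
        rw [this]
        linarith
      · have hcard : (Bad.filter fun i => i < m + 1) = (Bad.filter fun i => i < m) := by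
          ext i
          simp only [Finset.mem_filter]
          constructor
          · rintro ⟨h1, h2⟩
            rcases Nat.lt_succ_iff_lt_or_eq.1 h2 with h3 | h3
            · exact ⟨h1, h3⟩
            · exact absurd (h3 ▸ h1) hb
          · rintro ⟨h1, h2⟩
            exact ⟨h1, by omega⟩
        rw [hcard]
        push_cast
        have h1 := hgood m (by omega) hb
        have : D * ((m : ℤ) + 1 - (Bad.filter fun i => i < m).card) =
            D * (m - (Bad.filter fun i => i < m).card) + D := by ring
        rw [this]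
        linarith
  have h1 := key n le_rfl
  have h2 : ((Bad.filter fun i => i < n).card : ℤ) ≤ Bad.card := by
    exact_mod_cast Finset.card_filter_le _ _
  have h3 : D * ((n : ℤ) - Bad.card) ≤ D * (n - (Bad.filter fun i => i < n).card) :=
    mul_le_mul_of_nonneg_left (by linarith) hD
  linarith

/-- Averaging over a family of sequences. -/
theorem growth_avg {ι : Type} [DecidableEq ι] (I : Finset ι) (hI : I.Nonempty) {h : ι → ℕ → ℤ}
    {D : ℤ} (hD : 0 ≤ D) {n : ℕ} (Bd : Finset (ι × ℕ))
    (hgood : ∀ x ∈ I, ∀ j < n, (x, j) ∉ Bd → h x j + D ≤ h x (j + 1))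
    (hmono : ∀ x ∈ I, ∀ j < n, h x j ≤ h x (j + 1)) :
    ∃ x ∈ I, ∃ β : ℕ, I.card * β ≤ Bd.card ∧ h x 0 + D * (n - β) ≤ h x n := by
  classical
  set S : ι → Finset ℕ := fun x => (Bd.filter fun y => y.1 = x).image Prod.snd with hS
  have hsum : ∑ x ∈ I, (S x).card ≤ Bd.card := by
    calc ∑ x ∈ I, (S x).card ≤ ∑ x ∈ I, (Bd.filter fun y => y.1 = x).card :=
          Finset.sum_le_sum fun x _ => Finset.card_image_le
      _ = (I.biUnion fun x => Bd.filter fun y => y.1 = x).card := by
          rw [Finset.card_biUnion]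
          intro x _ x' _ hne
          refine Finset.disjoint_left.2 fun y hy hy' => hne ?_
          rw [Finset.mem_filter] at hy hy'
          exact hy.2.symm.trans hy'.2
      _ ≤ Bd.card := Finset.card_le_card (Finset.biUnion_subset.2 fun x _ =>
          Finset.filter_subset _ _)
  obtain ⟨x, hx, hxle⟩ : ∃ x ∈ I, I.card * (S x).card ≤ ∑ x ∈ I, (S x).card := by
    by_contra hcon
    push Not at hcon
    have hlt : ∑ x ∈ I, ∑ x ∈ I, (S x).card < ∑ x ∈ I, I.card * (S x).card :=
      Finset.sum_lt_sum_of_nonempty hI fun k hk => hcon k hk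
    rw [Finset.sum_const, smul_eq_mul, ← Finset.mul_sum] at hlt
    exact lt_irrefl _ hlt
  refine ⟨x, hx, (S x).card, hxle.trans hsum, ?_⟩
  have := growth0 (h := h x) hD (S x) n (fun j hj hb => hgood x hx j hj fun hc => hb ?_)
    (hmono x hx)
  · exact_mod_cast this
  · exact Finset.mem_image.2 ⟨(x, j), Finset.mem_filter.2 ⟨hc, rfl⟩, rfl⟩

/-- A function of slope at least one visits an interval of length `ℓ` at most `ℓ + 1` times. -/
theorem visits {h : ℕ → ℕ} {i₀ i₁ b ℓ : ℕ}
    (hh : ∀ w w', i₀ ≤ w → w ≤ w' → w' ≤ i₁ → h w + (w' - w) ≤ h w' + 1) :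
    ((range (i₁ + 1)).filter fun w => i₀ ≤ w ∧ b ≤ h w ∧ h w < b + ℓ).card ≤ ℓ + 1 := by
  classical
  set S := (range (i₁ + 1)).filter fun w => i₀ ≤ w ∧ b ≤ h w ∧ h w < b + ℓ with hS
  rcases S.eq_empty_or_nonempty with h0 | hne
  · rw [h0]; simp
  · have hmin := Finset.min'_mem S hne
    have hmax := Finset.max'_mem S hne
    set i := S.min' hne
    set j := S.max' hne
    have hij : i ≤ j := Finset.min'_le _ _ hmax
    have hsub : S ⊆ Finset.Icc i j := fun y hy =>
      Finset.mem_Icc.2 ⟨Finset.min'_le _ _ hy, Finset.le_max' _ _ hy⟩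
    have hcard := Finset.card_le_card hsub
    rw [Nat.card_Icc] at hcard
    rw [hS, Finset.mem_filter, Finset.mem_range] at hmin hmax
    have h1 := hh i j hmin.2.1 hij (by omega)
    omega

open Classical in
/-- Few blocks have many full blocks around them. -/
theorem near_card {M B : ℕ} {ν : ℝ} (hν : 0 < ν) (hB : 0 < B) (S : Finset ℕ) :
    ((((range M).filter fun j => ν * B < ((S.filter fun l => j < l + B ∧ l ≤ j + B).card : ℝ)).card
      : ℕ) : ℝ) ≤ 2 / ν * S.card := by
  set R := (range M).filter fun j => ν * B <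
    ((S.filter fun l => j < l + B ∧ l ≤ j + B).card : ℝ) with hR
  have hBr : (0 : ℝ) < B := by exact_mod_cast hB
  have h1 : (R.card : ℝ) * (ν * B) ≤ ∑ j ∈ R, ((S.filter fun l => j < l + B ∧ l ≤ j + B).card : ℝ) := by
    rw [← nsmul_eq_mul, ← Finset.sum_const]
    refine Finset.sum_le_sum fun j hj => ?_
    rw [hR, Finset.mem_filter] at hj
    exact hj.2.le
  have h2 : ∑ j ∈ R, ((S.filter fun l => j < l + B ∧ l ≤ j + B).card : ℝ) =
      ∑ l ∈ S, ((R.filter fun j => j < l + B ∧ l ≤ j + B).card : ℝ) := by
    simp only [Finset.card_filter]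
    push_cast
    rw [Finset.sum_comm]
  have h3 : ∀ l ∈ S, ((R.filter fun j => j < l + B ∧ l ≤ j + B).card : ℝ) ≤ 2 * B := by
    intro l _
    have hsub : (R.filter fun j => j < l + B ∧ l ≤ j + B) ⊆ Finset.Ico (l - B) (l + B) := by
      intro j hj
      rw [Finset.mem_filter] at hj
      rw [Finset.mem_Ico]
      omega
    have h4 := Finset.card_le_card hsub
    rw [Nat.card_Ico] at h4
    have h5 : (R.filter fun j => j < l + B ∧ l ≤ j + B).card ≤ 2 * B := by omega
    exact_mod_cast h5
  have h4 : (R.card : ℝ) * (ν * B) ≤ 2 * B * S.card := by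
    calc _ ≤ _ := h1
      _ = _ := h2
      _ ≤ ∑ _l ∈ S, (2 * B : ℝ) := Finset.sum_le_sum h3
      _ = _ := by rw [Finset.sum_const, nsmul_eq_mul]; ring
  have h5 : (R.card : ℝ) * ν ≤ 2 * S.card := by
    have h6 : (R.card : ℝ) * ν * B ≤ 2 * S.card * B := by linarith
    exact le_of_mul_le_mul_right h6 hBr
  rw [div_mul_eq_mul_div, le_div_iff₀ hν]
  exact h5

end Pool.SLPT
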