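import Pool.Agent.H76.SLP.Asm

/-!
# The slope law, from rows and windows to windows and radii

`SLOR` is the slope law in the form of helper71: a bound for the number of the pairs (row, window)
such that the law fails for the first radius of the row.
-/

set_option autoImplicit false

namespace Pool.PB

open Finset Real
open Pool.Agent.H49.Ent Pool.Agent.H32.Dense Pool.STK Pool.KA Pool.KSAT Pool.K2S

variable {m J : ℕ}

/-- The blocks of length `L` at the distance at most `B` blocks from the row `R`, counted from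
`R`, are not full. -/
def GCr (F : Fam m J) (c : ℝ) (N L B R : ℕ) (A : F.Ω → Prop) : Prop :=
  B * L ≤ R ∧ ∀ j < 2 * B, Zr F c N (R + j * L - B * L) (R + (j + 1) * L - B * L) A

/-- The slope law fails at the row `R` and the window `w`. -/
def Badr (F : Fam m J) (i₁ : Fin m) (N K ρ Q : ℕ) (γ : ℝ) (s : ℕ) (A : F.Ω → Prop)
    (R w : ℕ) : Prop :=
  ∃ a : ℕ, w ≤ a ∧ N ≤ 2 * Q * (a - w) ∧ Q * (a - w) ≤ N ∧ a + s ≤ ρ ∧
    R + 1 ≤ thrT F i₁ N ρ K A a w ∧ (∀ a' < a, w ≤ a' → thrT F i₁ N ρ K A a' w ≤ R) ∧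
    R + γ * N ≤ thrT F i₁ N ρ K A a a ∧
    thrT F i₁ N ρ K A (a + s) (w + s) < R + 1 + K * s

open Classical in
/-- The exceptional pairs (row, window). -/
noncomputable def srx (F : Fam m J) (i₁ : Fin m) (c : ℝ) (N L ρ K Q B s : ℕ) (γ : ℝ)
    (A : F.Ω → Prop) : Finset (ℕ × ℕ) :=
  (range (N + 1) ×ˢ range (N + 1)).filter fun z => z.1 + B * L ≤ ρ ∧
    GCr F c N L B z.1 A ∧ Badr F i₁ N K ρ Q γ s A z.1 z.2

/-- **(SLO)** in the form of helper71. -/
def SLOR (S : FCl m) : Prop :=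
  ∀ (c h₁ X : ℝ) (K : ℕ) (ε : ℝ), 0 < c → 0 < h₁ → 0 < X → 1 ≤ K → 0 < ε →
    ∃ B U : ℕ, 0 < U ∧ U ≤ B ∧ ∃ Q₀ : ℕ, ∀ Q ≥ Q₀, ∀ γ : ℝ, 0 < γ →
    ∃ M₁ : ℕ, ∀ M ≥ M₁, ∃ L₁ : ℕ, ∀ L ≥ L₁, ∀ N : ℕ, N = M * L →
    ∀ (i₁ : Fin m) (ρ : ℕ), (ρ : ℝ) + X * N ≤ N →
    Clg S (fun J F A => Ch F i₁ ⌊h₁ * J⌋₊ A → Pls F c N ρ A →
      ((srx F i₁ c N L ρ K Q B (U * L) γ A).card : ℝ) ≤ ε * N * (N / Q))

/-- The trivial law at a fixed window. -/
theorem thrT_rad {F : Fam m J} {i₁ : Fin m} {N ρ K : ℕ} {A : F.Ω → Prop}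
    (hR : ∀ a w v p : ℕ, w ≤ a → a + v ≤ ρ → p + v ≤ ρ →
      Tb F i₁ (ρ * (J / N)) K (a * (J / N)) (w * (J / N)) (p * (J / N)) A →
      Tb F i₁ (ρ * (J / N)) K ((a + v) * (J / N)) (w * (J / N)) ((p + v - 1) * (J / N)) A)
    {a w v : ℕ} (hwa : w ≤ a) (hav : a + v ≤ ρ) (h : 0 < thrT F i₁ N ρ K A a w)
    (hv : thrT F i₁ N ρ K A a w + v ≤ ρ) :
    thrT F i₁ N ρ K A a w + v ≤ thrT F i₁ N ρ K A (a + v) w + 1 := by
  have h3 := le_thrT (by omega) (hR a w v _ hwa hav hv (thrT_spec h))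
  omega

/-- Blocks counted from a row, from aligned blocks. -/
theorem gcr_of_nf {F : Fam m J} {A : F.Ω → Prop}
    (hlaw : IsLaw (Pool.Agent.H49.Ent.cond F.p A True)) {N l B P ρ : ℕ} {c : ℝ} (hc : 0 < c)
    (hu : 0 < J / N) (hl : 0 < l) (h : Nf F c N l (4 * B + 2) P A) (hP : B * (4 * l) + 1 ≤ P)
    (hPρ : P + (4 * B + 2) * l ≤ ρ) (hρN : ρ ≤ N) :
    GCr F (c / 2) N (4 * l) B (P - 1) A := by
  refine ⟨by omega, fun j hj => ?_⟩
  obtain ⟨x, hx⟩ : ∃ x, x = P - 1 + j * (4 * l) - B * (4 * l) := ⟨_, rfl⟩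
  have hx2 : P - 1 + (j + 1) * (4 * l) - B * (4 * l) = x + 4 * l := by
    have : (j + 1) * (4 * l) = j * (4 * l) + 4 * l := by ring
    omega
  rw [← hx, hx2]
  obtain ⟨t, ht⟩ : ∃ t, t = (x + l - 1) / l := ⟨_, rfl⟩
  have ht1 : x ≤ t * l := by
    have h1 := Nat.lt_div_mul_add (a := x + l - 1) hl
    rw [← ht] at h1
    omega
  have ht2 : t * l < x + l := by
    have h1 : t * l ≤ x + l - 1 := by rw [ht]; exact Nat.div_mul_le_self _ _
    omega
  obtain ⟨y, hy⟩ : ∃ y, y = P / l := ⟨_, rfl⟩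
  have hy1 : y * l ≤ P := by rw [hy]; exact Nat.div_mul_le_self _ _
  have hy2 : P < y * l + l := by
    have := Nat.lt_div_mul_add (a := P) hl
    rw [← hy] at this
    exact this
  have eB : B * (4 * l) = 4 * B * l := by ring
  have ej : j * (4 * l) = 4 * j * l := by ring
  have ej2 : 4 * j * l ≤ 8 * B * l - 4 * l := by
    have : 4 * j * l + 4 * l ≤ 8 * B * l := by
      have e1 : 4 * j * l + 4 * l = (4 * j + 4) * l := by ring
      rw [e1]
      exact Nat.mul_le_mul_right l (by omega)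
    omega
  have e5 : 1 ≤ B := by
    by_contra h0
    have : B = 0 := by omega
    rw [this] at hj
    omega
  have e6 : 4 * l ≤ 4 * B * l := Nat.mul_le_mul_right l (by omega)
  have k1 : y < t + (4 * B + 2) := by
    by_contra hcon
    push Not at hcon
    have e1 : (t + (4 * B + 2)) * l ≤ y * l := Nat.mul_le_mul_right l hcon
    have e2 : (t + (4 * B + 2)) * l = t * l + 4 * B * l + 2 * l := by ring
    omega
  have k2 : t + 2 < y + (4 * B + 2) := by
    by_contra hcon
    push Not at hcon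
    have e1 : (y + (4 * B + 2)) * l ≤ (t + 2) * l := Nat.mul_le_mul_right l hcon
    have e2 : (y + (4 * B + 2)) * l = y * l + 4 * B * l + 2 * l := by ring
    have e3 : (t + 2) * l = t * l + 2 * l := by ring
    have e4 : 8 * B * l = 4 * B * l + 4 * B * l := by ring
    omega
  have e0 : (4 * B + 2) * l = 4 * B * l + 2 * l := by ring
  have htN : (t + 3) * l ≤ N := by
    have e1 : (t + 3) * l = t * l + 3 * l := by ring
    have e4 : 8 * B * l = 4 * B * l + 4 * B * l := by ring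
    omega
  have hblk : ∀ i < 3, c * l ≤ bs (DD F A N) l (t + i) := by
    intro i hi
    rw [← Zr_bs hlaw hu]
    refine h (t + i) (by rw [← hy]; omega) (by rw [← hy]; omega) ?_
    exact (Nat.mul_le_mul_right l (by omega)).trans htN
  rw [Zr_iff F hlaw hu (by omega)]
  have hsum : ∑ r ∈ Ico (t * l) ((t + 3) * l), DD F A N r =
      bs (DD F A N) l (t + 0) + bs (DD F A N) l (t + 1) + bs (DD F A N) l (t + 2) := by
    rw [bs_Ico, bs_Ico, bs_Ico]
    have a1 : t * l ≤ (t + 1) * l := Nat.mul_le_mul_right l (by omega)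
    have a2 : (t + 1) * l ≤ (t + 2) * l := Nat.mul_le_mul_right l (by omega)
    have a3 : (t + 2) * l ≤ (t + 3) * l := Nat.mul_le_mul_right l (by omega)
    rw [← Finset.sum_Ico_consecutive _ (a1.trans a2) a3, ← Finset.sum_Ico_consecutive _ a1 a2]
    rfl
  have hsub : ∑ r ∈ Ico (t * l) ((t + 3) * l), DD F A N r ≤
      ∑ r ∈ Ico x (x + 4 * l), DD F A N r := by
    refine Finset.sum_le_sum_of_subset_of_nonneg ?_ fun r _ _ => DD_nonneg F hlaw hu r
    refine Finset.Ico_subset_Ico ht1 ?_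
    have e1 : (t + 3) * l = t * l + 3 * l := by ring
    omega
  have b0 := hblk 0 (by omega)
  have b1 := hblk 1 (by omega)
  have b2 := hblk 2 (by omega)
  push_cast
  have hl' : (0 : ℝ) < l := by exact_mod_cast hl
  nlinarith only [hsum, hsub, b0, b1, b2, hc]

open Classical in
/-- The number of the jumps of a monotone function. -/
theorem card_jumps {g : ℕ → ℕ} (hg : Monotone g) {N : ℕ} {x : ℝ} (hx : 0 < x)
    (hN : ∀ a, g a ≤ N) :
    (((range (N + 1)).filter fun a => (g (a - 1) : ℝ) + x < g a).card : ℝ) ≤ N / x := by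
  rw [le_div_iff₀ hx]
  have h1 : ∀ n : ℕ, (((range (n + 1)).filter fun a => (g (a - 1) : ℝ) + x < g a).card : ℝ) * x ≤
      (g n : ℝ) := by
    intro n
    induction n with
    | zero =>
      have : ((range (0 + 1)).filter fun a => (g (a - 1) : ℝ) + x < g a) = ∅ := by
        refine Finset.filter_eq_empty_iff.2 fun a ha => ?_
        rw [Finset.mem_range] at ha
        have : a = 0 := by omega
        rw [this]
        simp only [Nat.zero_sub, not_lt]
        linarith only [hx]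
      rw [this]
      simp
    | succ n ih =>
      rw [Finset.range_add_one (n := n + 1), Finset.filter_insert]
      have hm : (g n : ℝ) ≤ g (n + 1) := by exact_mod_cast hg (Nat.le_succ n)
      split_ifs with h
      · rw [Finset.card_insert_of_notMem (by simp)]
        rw [Nat.add_sub_cancel] at h
        push_cast
        linarith only [ih, h]
      · exact ih.trans hm
  exact (h1 N).trans (by exact_mod_cast hN N)

open Classical in
/-- **The change of variables** for one event. -/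
theorem slx_le {F : Fam m J} {A : F.Ω → Prop}
    (hlaw : IsLaw (Pool.Agent.H49.Ent.cond F.p A True)) {i₁ : Fin m} {N l ρ K Q B U : ℕ}
    {c γ : ℝ} (hc : 0 < c) (hγ : 0 < γ) (hN : 0 < N) (hJ : N ≤ J) (hl : 0 < l) (hQ : 0 < Q)
    (hρN : ρ ≤ N) (hγN : 2 ≤ γ * N)
    (hR : ∀ a w v p : ℕ, w ≤ a → a + v ≤ ρ → p + v ≤ ρ →
      Tb F i₁ (ρ * (J / N)) K (a * (J / N)) (w * (J / N)) (p * (J / N)) A →
      Tb F i₁ (ρ * (J / N)) K ((a + v) * (J / N)) (w * (J / N)) ((p + v - 1) * (J / N)) A) :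
    ((slx F i₁ c N l ρ K Q (4 * B + 2) (4 * U) γ A).card : ℝ) ≤
      2 * (srx F i₁ (c / 2) N (4 * l) ρ K Q B (U * (4 * l)) (γ / 4) A).card +
      (N + (4 * B * l + 2) * (N / Q + 1 : ℕ) + 2 / γ * (N / Q + 1 : ℕ)) := by
  have hu : 0 < J / N := Nat.div_pos hJ hN
  set T := thrT F i₁ N ρ K A with hT
  have hmono : ∀ a a' w w', a ≤ a' → w ≤ w' → w' ≤ N → T a w ≤ T a' w' :=
    fun a a' w w' h1 h2 h3 => thrT_mono h1 h2 h3
  have hTρ : ∀ a w, T a w ≤ ρ := fun a w => thrT_le a w
  set X := slx F i₁ c N l ρ K Q (4 * B + 2) (4 * U) γ A with hX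
  have hXmem : ∀ x ∈ X, x.1 < N ∧ x.2 < N + 1 ∧ N ≤ 2 * Q * x.2 ∧ Q * x.2 ≤ N ∧
      x.1 + x.2 + 4 * U * l ≤ ρ ∧ T (x.1 + x.2) x.1 + (4 * B + 2) * l ≤ ρ ∧
      Nf F c N l (4 * B + 2) (T (x.1 + x.2) x.1) A ∧
      (T (x.1 + x.2) x.1 : ℝ) + γ * N ≤ T (x.1 + x.2) (x.1 + x.2) ∧
      T (x.1 + x.2 + 4 * U * l) (x.1 + 4 * U * l) < T (x.1 + x.2) x.1 + K * (4 * U * l) := by
    intro x hx
    rw [hX] at hx
    unfold slx at hx
    rw [Finset.mem_filter, Finset.mem_product, Finset.mem_range, Finset.mem_range] at hx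
    obtain ⟨⟨x1, x2⟩, P, hP, ⟨z1, z2⟩, x3, x4, x5, x6, x7⟩ := hx
    rw [← hT] at hP
    rw [hP] at x4 x5 x6 x7
    exact ⟨x1, x2, z1, z2, x3, x4, x5, x6, x7⟩
  -- the four parts
  set Xb := X.filter fun x => ¬ N ≤ 2 * Q * (x.2 - 1) with hXb
  set Xc := X.filter fun x => T (x.1 + x.2) x.1 < B * (4 * l) + 1 with hXc
  set Xd := X.filter fun x => (T (x.1 + x.2 - 1) (x.1 + x.2 - 1) : ℝ) + γ / 2 * N <
    T (x.1 + x.2) (x.1 + x.2) with hXd
  set Xa := X.filter fun x => N ≤ 2 * Q * (x.2 - 1) ∧ B * (4 * l) + 1 ≤ T (x.1 + x.2) x.1 ∧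
    (T (x.1 + x.2) (x.1 + x.2) : ℝ) ≤ T (x.1 + x.2 - 1) (x.1 + x.2 - 1) + γ / 2 * N with hXa
  have hXsub : X ⊆ Xa ∪ (Xb ∪ (Xc ∪ Xd)) := by
    intro x hx
    by_cases h1 : N ≤ 2 * Q * (x.2 - 1)
    · by_cases h2 : B * (4 * l) + 1 ≤ T (x.1 + x.2) x.1
      · by_cases h3 : (T (x.1 + x.2) (x.1 + x.2) : ℝ) ≤ T (x.1 + x.2 - 1) (x.1 + x.2 - 1) +
            γ / 2 * N
        · exact Finset.mem_union_left _ (Finset.mem_filter.2 ⟨hx, h1, h2, h3⟩)
        · exact Finset.mem_union_right _ (Finset.mem_union_right _ (Finset.mem_union_right _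
            (Finset.mem_filter.2 ⟨hx, not_le.1 h3⟩)))
      · exact Finset.mem_union_right _ (Finset.mem_union_right _ (Finset.mem_union_left _
          (Finset.mem_filter.2 ⟨hx, not_le.1 h2⟩)))
    · exact Finset.mem_union_right _ (Finset.mem_union_left _ (Finset.mem_filter.2 ⟨hx, h1⟩))
  -- the boundary of the zone
  have hb : Xb.card ≤ N := by
    have : Xb.card ≤ (range N).card := by
      refine Finset.card_le_card_of_injOn (fun x => x.1) ?_ ?_
      · intro x hx
        exact Finset.mem_coe.2 (Finset.mem_range.2 (hXmem x (Finset.mem_filter.1 hx).1).1)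
      · rintro ⟨w, k⟩ hx ⟨w', k'⟩ hx' heq
        have heq' : w = w' := heq
        have y1 := Finset.mem_filter.1 hx
        have y2 := Finset.mem_filter.1 hx'
        have z1 := hXmem _ y1.1
        have z2 := hXmem _ y2.1
        have a1 := not_le.1 y1.2
        have a2 := not_le.1 y2.2
        simp only at z1 z2 a1 a2
        have key : ∀ k k' : ℕ, N ≤ 2 * Q * k → 2 * Q * (k' - 1) < N → k' ≤ k := by
          intro k k' h1 h2
          by_contra hcon
          push Not at hcon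
          have : 2 * Q * k ≤ 2 * Q * (k' - 1) := Nat.mul_le_mul_left _ (by omega)
          omega
        have b1 := key k k' z1.2.2.1 a2
        have b2 := key k' k z2.2.2.1 a1
        rw [heq', le_antisymm b2 b1]
    rwa [Finset.card_range] at this
  have hkQ : ∀ x ∈ X, x.2 < N / Q + 1 := by
    intro x hx
    have := (hXmem x hx).2.2.2.1
    rw [Nat.lt_succ_iff, Nat.le_div_iff_mul_le hQ, Nat.mul_comm]
    exact this
  -- the first rows
  have hcc : Xc.card ≤ (4 * B * l + 2) * (N / Q + 1) := by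
    have : Xc.card ≤ (range (4 * B * l + 2) ×ˢ range (N / Q + 1)).card := by
      refine Finset.card_le_card fun x hx => ?_
      rw [Finset.mem_filter] at hx
      obtain ⟨x1, -, -, -, x3, -⟩ := hXmem x hx.1
      rw [Finset.mem_product, Finset.mem_range, Finset.mem_range]
      refine ⟨?_, hkQ x hx.1⟩
      rcases Nat.eq_zero_or_pos x.1 with h0 | h0
      · omega
      · have h1 : x.1 - 1 ≤ T (x.1 + x.2) x.1 :=
          thrT_trivial hN hJ (by omega) h0 (by omega)
        have e : B * (4 * l) = 4 * B * l := by ring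
        omega
    rwa [Finset.card_product, Finset.card_range, Finset.card_range] at this
  -- the jumps
  have hd : (Xd.card : ℝ) ≤ 2 / γ * (N / Q + 1 : ℕ) := by
    set G : ℕ → ℕ := fun a => T (min a N) (min a N) with hG
    have hGm : Monotone G := fun a a' h =>
      hmono _ _ _ _ (min_le_min_right _ h) (min_le_min_right _ h) (min_le_right _ _)
    have hj := card_jumps (g := G) hGm (N := N) (x := γ / 2 * N) (by positivity)
      (fun a => (hTρ _ _).trans hρN)
    have e1 : (N : ℝ) / (γ / 2 * N) = 2 / γ := by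
      have : (0 : ℝ) < N := by exact_mod_cast hN
      field_simp
    rw [e1] at hj
    have h2 : Xd.card ≤ ((range (N + 1)).filter fun a =>
        (G (a - 1) : ℝ) + γ / 2 * N < G a).card * (N / Q + 1) := by
      have : Xd.card ≤ (((range (N + 1)).filter fun a =>
          (G (a - 1) : ℝ) + γ / 2 * N < G a) ×ˢ range (N / Q + 1)).card := by
        refine Finset.card_le_card_of_injOn (fun x => (x.1 + x.2, x.2)) ?_ ?_
        · intro x hx
          have y1 := Finset.mem_filter.1 (Finset.mem_coe.1 hx)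
          obtain ⟨x1, x2, -, -, x3, -⟩ := hXmem x y1.1
          rw [Finset.mem_coe, Finset.mem_product, Finset.mem_filter, Finset.mem_range,
            Finset.mem_range]
          refine ⟨⟨show x.1 + x.2 < N + 1 by omega, ?_⟩, hkQ x y1.1⟩
          have e2 : min (x.1 + x.2 - 1) N = x.1 + x.2 - 1 := by omega
          have e3 : min (x.1 + x.2) N = x.1 + x.2 := by omega
          simp only [hG, e2, e3]
          exact y1.2
        · rintro ⟨w, k⟩ _ ⟨w', k'⟩ _ heq
          simp only [Prod.mk.injEq] at heq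
          obtain ⟨h1, h2⟩ := heq
          rw [Prod.mk.injEq]
          omega
      rwa [Finset.card_product, Finset.card_range] at this
    calc (Xd.card : ℝ) ≤ (((range (N + 1)).filter fun a =>
          (G (a - 1) : ℝ) + γ / 2 * N < G a).card : ℝ) * (N / Q + 1 : ℕ) := by exact_mod_cast h2
      _ ≤ _ := mul_le_mul_of_nonneg_right hj (Nat.cast_nonneg _)
  -- the main part
  have hfib : ∀ w a a' : ℕ, w ≤ a → a + 2 ≤ a' → a' ≤ ρ → 0 < T a w → T a w + 2 ≤ ρ →
      T a w < T a' w := by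
    intro w a a' h1 h2 h3 h4 h5
    have e1 := thrT_rad hR h1 (show a + 2 ≤ ρ by omega) h4 h5
    rw [← hT] at e1
    have e2 := hmono (a + 2) a' w w h2 le_rfl (by omega)
    omega
  have ha : Xa.card ≤ 2 * (srx F i₁ (c / 2) N (4 * l) ρ K Q B (U * (4 * l)) (γ / 4) A).card := by
    have h1 := Finset.card_le_mul_card_image (f := fun x : ℕ × ℕ => (T (x.1 + x.2) x.1 - 1, x.1))
      Xa 2 ?_
    · refine h1.trans (Nat.mul_le_mul_left 2 (Finset.card_le_card ?_))
      rintro z hz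
      obtain ⟨⟨w, k⟩, hx, rfl⟩ := Finset.mem_image.1 hz
      obtain ⟨y1, y2, y3, y4⟩ := Finset.mem_filter.1 hx
      obtain ⟨x1, x2, z1, z2, x3, x4, x5, x6, x7⟩ := hXmem _ y1
      simp only at y2 y3 y4 x1 x2 z1 z2 x3 x4 x5 x6 x7
      obtain ⟨P, hP⟩ : ∃ P, P = T (w + k) w := ⟨_, rfl⟩
      rw [← hP] at y3 x4 x5 x6 x7
      have hl2 : 2 ≤ (4 * B + 2) * l := by
        calc 2 ≤ 4 * B + 2 := by omega
          _ ≤ (4 * B + 2) * l := Nat.le_mul_of_pos_right _ hl
      -- the first radius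
      have hex : ∃ a, w ≤ a ∧ P ≤ T a w := ⟨w + k, by omega, hP.le⟩
      obtain ⟨a₀, ha₀⟩ : ∃ a₀, a₀ = Nat.find hex := ⟨_, rfl⟩
      have hsp := Nat.find_spec hex
      have hmin : ∀ a' < a₀, w ≤ a' → T a' w < P := fun a' h h' => by
        rw [ha₀] at h
        have := Nat.find_min hex h
        push Not at this
        exact this h'
      rw [← ha₀] at hsp
      have hle : a₀ ≤ w + k := by rw [ha₀]; exact Nat.find_min' hex ⟨by omega, hP.le⟩
      have hge : w + k ≤ a₀ + 1 := by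
        by_contra hcon
        push Not at hcon
        have h2 : T a₀ w ≤ P := by rw [hP]; exact hmono _ _ _ _ hle le_rfl (by omega)
        have := hfib w a₀ (w + k) hsp.1 (by omega) (by omega) (by omega) (by omega)
        omega
      unfold srx
      rw [Finset.mem_filter, Finset.mem_product, Finset.mem_range, Finset.mem_range]
      have hPρ : P ≤ ρ := by rw [hP]; exact hTρ _ _
      have eBl : B * (4 * l) = 4 * B * l := by ring
      have e0 : (4 * B + 2) * l = 4 * B * l + 2 * l := by ring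
      have eU : U * (4 * l) = 4 * U * l := by ring
      simp only
      rw [← hP]
      refine ⟨⟨by omega, by omega⟩, by omega, gcr_of_nf hlaw hc hu hl x5 y3 x4 hρN, a₀, hsp.1,
        ?_, ?_, by omega, ?_, ?_, ?_, ?_⟩
      · refine y2.trans (Nat.mul_le_mul_left _ (by omega))
      · exact (Nat.mul_le_mul_left Q (by omega)).trans z2
      · rw [← hT]
        omega
      · intro a' h h'
        rw [← hT]
        have := hmin a' h h'
        omega
      · rw [← hT]
        have h2 : (T (w + k - 1) (w + k - 1) : ℝ) ≤ T a₀ a₀ := by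
          exact_mod_cast hmono _ _ _ _ (by omega) (by omega) (by omega)
        have h3 : ((P - 1 : ℕ) : ℝ) ≤ P := by exact_mod_cast Nat.sub_le _ _
        have hγN' : (0 : ℝ) ≤ γ * N := by linarith only [hγN]
        have e1 : γ / 4 * N = γ * N / 4 := by ring
        have e2 : γ / 2 * N = γ * N / 2 := by ring
        rw [e1]
        rw [e2] at y4
        linarith only [hγN, y4, x6, h2, h3]
      · rw [← hT, eU]
        have h2 := hmono (a₀ + 4 * U * l) (w + k + 4 * U * l) (w + 4 * U * l) (w + 4 * U * l)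
          (by omega) le_rfl (by omega)
        have h3 : P - 1 + 1 = P := by omega
        rw [h3]
        omega
    · -- the fibres
      rintro z hz
      obtain ⟨⟨w, k⟩, hx, rfl⟩ := Finset.mem_image.1 hz
      set Fb := Xa.filter fun x : ℕ × ℕ => (T (x.1 + x.2) x.1 - 1, x.1) =
        (T (w + k) w - 1, w) with hFb
      by_contra hcon
      push Not at hcon
      -- the least and the largest element
      have hmemF : ∀ x ∈ Fb, x.1 = w ∧ T (w + x.2) w = T (w + k) w ∧ w + x.2 ≤ ρ ∧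
          0 < T (w + x.2) w ∧ T (w + x.2) w + 2 ≤ ρ := by
        intro x hxF
        obtain ⟨y1, y2⟩ := Finset.mem_filter.1 hxF
        obtain ⟨y3, -, y5, -⟩ := Finset.mem_filter.1 y1
        obtain ⟨-, -, -, -, x3, x4, -⟩ := hXmem _ y3
        obtain ⟨-, -, y6, -⟩ := Finset.mem_filter.1 hx
        simp only [Prod.mk.injEq] at y2
        obtain ⟨e1, e2⟩ := y2
        simp only at y6
        rw [e2] at y5 x3 x4 e1
        have hl2 : 2 ≤ (4 * B + 2) * l := by
          calc 2 ≤ 4 * B + 2 := by omega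
            _ ≤ (4 * B + 2) * l := Nat.le_mul_of_pos_right _ hl
        exact ⟨e2, by omega, by omega, by omega, by omega⟩
      have hne : Fb.Nonempty := Finset.card_pos.1 (by omega)
      have hcard : Fb.card ≤ 2 := by
        obtain ⟨x₀, hx₀, hx₀min⟩ := Finset.exists_min_image Fb (fun x => x.2) hne
        have hsub : Fb ⊆ {(w, x₀.2), (w, x₀.2 + 1)} := by
          intro x hxF
          have h1 := hmemF x hxF
          have h2 := hmemF x₀ hx₀
          have h3 := hx₀min x hxF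
          have h4 : x.2 ≤ x₀.2 + 1 := by
            by_contra hc
            push Not at hc
            have := hfib w (w + x₀.2) (w + x.2) (by omega) (by omega) h1.2.2.1 h2.2.2.2.1
              h2.2.2.2.2
            omega
          rw [Finset.mem_insert, Finset.mem_singleton]
          rcases Nat.lt_or_ge x₀.2 x.2 with h5 | h5
          · right
            exact Prod.ext h1.1 (show x.2 = x₀.2 + 1 by omega)
          · left
            exact Prod.ext h1.1 (show x.2 = x₀.2 by omega)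
        exact (Finset.card_le_card hsub).trans Finset.card_le_two
      omega
  -- the sum
  have hsum : X.card ≤ Xa.card + (Xb.card + (Xc.card + Xd.card)) :=
    (Finset.card_le_card hXsub).trans ((Finset.card_union_le _ _).trans
      (Nat.add_le_add_left ((Finset.card_union_le _ _).trans
        (Nat.add_le_add_left (Finset.card_union_le _ _) _)) _))
  have hsum' : (X.card : ℝ) ≤ Xa.card + (Xb.card + (Xc.card + Xd.card)) := by
    exact_mod_cast hsum
  have ha' : (Xa.card : ℝ) ≤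
      2 * (srx F i₁ (c / 2) N (4 * l) ρ K Q B (U * (4 * l)) (γ / 4) A).card := by
    exact_mod_cast ha
  have hb' : (Xb.card : ℝ) ≤ N := by exact_mod_cast hb
  have hc' : (Xc.card : ℝ) ≤ (4 * B * l + 2) * (N / Q + 1 : ℕ) := by exact_mod_cast hcc
  linarith only [hd, hsum', ha', hb', hc']

/-- The slope law from its form by rows. -/
theorem slot_of_slor {S : FCl m} (hRAD : RADS S) (hSLO : SLOR S) : SLOT S := by
  intro c h₁ X hc hh₁ hX
  refine ⟨1, fun K hK ε hε => ?_⟩
  obtain ⟨B, U, hU, hUB, Q₀, h⟩ := hSLO (c / 2) h₁ X K (ε / 4) (by positivity) hh₁ hX hK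
    (by positivity)
  refine ⟨Q₀, fun Q hQ hQ0 γ hγ => ?_⟩
  obtain ⟨M₁, h⟩ := h Q hQ (γ / 4) (by positivity)
  obtain ⟨M₂, hM₂⟩ := exists_nat_gt ((16 * B + 8) / ε)
  refine ⟨4 * B + 2, 4 * U, by omega, by omega, M₁ + M₂ + 1, fun M hM => ?_⟩
  obtain ⟨L₁, h⟩ := h M (by omega)
  obtain ⟨N₁, hR⟩ := rad_clg hRAD hh₁ hX hK
  obtain ⟨L₂, hL₂⟩ := exists_nat_gt (8 * Q / ε)
  obtain ⟨L₃, hL₃⟩ := exists_nat_gt (32 / (γ * ε))
  obtain ⟨L₄, hL₄⟩ := exists_nat_gt (2 / γ)
  refine ⟨L₁ + L₂ + L₃ + L₄ + N₁ + Q + 1, fun L hL N hN i₁ ρ hρ => ?_⟩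
  have hM0 : 0 < M := by omega
  have hL0 : 0 < L := by omega
  have hLN : L ≤ N := by
    rw [hN]
    exact Nat.le_mul_of_pos_left _ (by omega)
  have hN0 : 0 < N := by omega
  have rN : (0 : ℝ) < N := by exact_mod_cast hN0
  have rQ : (0 : ℝ) < Q := by exact_mod_cast hQ0
  have hρN : ρ ≤ N := by
    have h1 : (0 : ℝ) ≤ X * N := by positivity
    have : (ρ : ℝ) ≤ N := by linarith only [hρ, h1]
    exact_mod_cast this
  have c1 := h (4 * L) (by omega) N (by rw [hN]; ring) i₁ ρ hρ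
  have c2 := hR N (by omega) i₁ ρ hρ
  refine Clg.mono (J₂ := N) ((clg_law S).and (c1.and c2)) ?_
  rintro J hJ F A ⟨hlaw, d1, d2⟩ hCh hPls
  have hLr : ∀ L' ≤ L, ((L' : ℕ) : ℝ) ≤ N := fun L' h' => by exact_mod_cast h'.trans hLN
  have hγN : 2 ≤ γ * N := by
    have e1 := (hLr L₄ (by omega))
    rw [div_lt_iff₀ hγ] at hL₄
    nlinarith only [hL₄, hγ, e1]
  have key := slx_le (F := F) (A := A) hlaw (i₁ := i₁) (N := N) (l := L) (ρ := ρ) (K := K)
    (Q := Q) (B := B) (U := U) (c := c) (γ := γ) hc hγ hN0 hJ hL0 hQ0 hρN hγN (d2 hCh)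
  have e0 := d1 hCh (hPls.mono_c (by linarith only [hc]))
  refine key.trans ?_
  -- the arithmetic
  obtain ⟨z, hz⟩ : ∃ z : ℝ, z = N / Q := ⟨_, rfl⟩
  have hz0 : 0 < z := by rw [hz]; positivity
  have hz1 : 1 ≤ z := by
    rw [hz, le_div_iff₀ rQ, one_mul]
    exact hLr Q (by omega)
  have hzc : ((N / Q + 1 : ℕ) : ℝ) ≤ 2 * z := by
    have : ((N / Q : ℕ) : ℝ) ≤ N / Q := Nat.cast_div_le
    push_cast
    linarith only [hz, hz1, this]
  rw [← hz] at e0 ⊢
  have a1 : (N : ℝ) ≤ ε / 8 * N * z := by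
    have e1 : 8 * (Q : ℝ) ≤ ε * N := by
      have := hLr L₂ (by omega)
      rw [div_lt_iff₀ hε] at hL₂
      nlinarith only [hL₂, hε, this]
    have e2 : (1 : ℝ) ≤ ε / 8 * z := by
      rw [hz, ← mul_div_assoc, le_div_iff₀ rQ]
      linarith only [e1]
    have := mul_le_mul_of_nonneg_left e2 rN.le
    linarith only [this]
  have a2 : (4 * (B : ℝ) * L + 2) * (N / Q + 1 : ℕ) ≤ ε / 8 * N * z := by
    have e1 : (16 * (B : ℝ) + 8) ≤ ε * M := by
      have : ((M₂ : ℕ) : ℝ) ≤ M := by exact_mod_cast (by omega : M₂ ≤ M)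
      rw [div_lt_iff₀ hε] at hM₂
      nlinarith only [hM₂, hε, this]
    have e2 : (1 : ℝ) ≤ L := by exact_mod_cast hL0
    have e3 : (4 * (B : ℝ) * L + 2) * 2 ≤ ε / 8 * N := by
      rw [hN]
      push_cast
      have e4 : (16 * (B : ℝ) + 8) * L ≤ ε * M * L := mul_le_mul_of_nonneg_right e1 (by linarith only [e2])
      nlinarith only [e2, e4]
    calc (4 * (B : ℝ) * L + 2) * (N / Q + 1 : ℕ) ≤ (4 * (B : ℝ) * L + 2) * (2 * z) :=
          mul_le_mul_of_nonneg_left hzc (by positivity)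
      _ = (4 * (B : ℝ) * L + 2) * 2 * z := by ring
      _ ≤ ε / 8 * N * z := mul_le_mul_of_nonneg_right e3 hz0.le
  have a3 : 2 / γ * (N / Q + 1 : ℕ) ≤ ε / 8 * N * z := by
    have e1 : 32 ≤ γ * ε * N := by
      have := hLr L₃ (by omega)
      rw [div_lt_iff₀ (by positivity)] at hL₃
      have : (0 : ℝ) < γ * ε := by positivity
      nlinarith
    have e2 : 2 / γ * 2 ≤ ε / 8 * N := by
      rw [div_mul_eq_mul_div, div_le_iff₀ hγ]
      linarith only [e1]
    calc 2 / γ * (N / Q + 1 : ℕ) ≤ 2 / γ * (2 * z) :=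
          mul_le_mul_of_nonneg_left hzc (by positivity)
      _ = 2 / γ * 2 * z := by ring
      _ ≤ ε / 8 * N * z := mul_le_mul_of_nonneg_right e2 hz0.le
  have a4 : 0 < ε / 8 * N * z := by positivity
  linarith only [rN, e0, a1, a2, a3]

/-- **(SLP)** from its four parts, with the slope law by rows. -/
theorem slp_of_slor {S : FCl m} (hRAD : RADS S) (hBFL : BFLW S) (hSLO : SLOR S)
    (hCNV : CNVS S) : SLP S := slp_of' hRAD hBFL (slot_of_slor hRAD hSLO) hCNV

end Pool.PB
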